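import Mathlib

-- merged part: Pool.Agent.Work.MP_4e33a2_an.Tri
section
set_option autoImplicit false
set_option linter.unusedSectionVars false

namespace Pool.Agent.Work.MP_4e33a2_an

open Filter Topology

/-- Coordinates, unit vectors and band projections of an atomic Banach lattice. -/
structure Atomic (E : Type) [NormedAddCommGroup E] [Lattice E] [NormedSpace ℝ E] (I : Type) where
  co : I → E →L[ℝ] ℝ
  e : I → E
  P : Set I → E →L[ℝ] E
  nonneg_iff : ∀ x : E, 0 ≤ x ↔ ∀ i, 0 ≤ co i x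
  co_self : ∀ i, co i (e i) = 1
  co_ne : ∀ i j, i ≠ j → co i (e j) = 0
  P_in : ∀ S x i, i ∈ S → co i (P S x) = co i x
  P_out : ∀ S x i, i ∉ S → co i (P S x) = 0
  dense : ∀ x : E, x ∈ closure (Submodule.span ℝ (e '' {i | co i x ≠ 0}) : Set E)

variable {E : Type} [NormedAddCommGroup E] [Lattice E] [HasSolidNorm E] [IsOrderedAddMonoid E]
  [NormedSpace ℝ E] [PosSMulMono ℝ E] [CompleteSpace E] {I : Type}

/-- Positive operators. -/
def Pos (X : E →L[ℝ] E) : Prop := ∀ x : E, 0 ≤ x → 0 ≤ X x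

theorem Pos.mono {X : E →L[ℝ] E} (hX : Pos X) {x y : E} (h : x ≤ y) : X x ≤ X y := by
  have := hX (y - x) (sub_nonneg.2 h)
  rwa [map_sub, sub_nonneg] at this

theorem Pos.mul {X Y : E →L[ℝ] E} (hX : Pos X) (hY : Pos Y) : Pos (X * Y) :=
  fun x hx => hX _ (hY x hx)

theorem Pos.add {X Y : E →L[ℝ] E} (hX : Pos X) (hY : Pos Y) : Pos (X + Y) :=
  fun x hx => add_nonneg (hX x hx) (hY x hx)

theorem Pos.smul {X : E →L[ℝ] E} (hX : Pos X) {t : ℝ} (ht : 0 ≤ t) : Pos (t • X) :=
  fun x hx => smul_nonneg ht (hX x hx)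

theorem pos_one : Pos (1 : E →L[ℝ] E) := fun _ hx => hx

theorem Pos.pow {X : E →L[ℝ] E} (hX : Pos X) (n : ℕ) : Pos (X ^ n) := by
  induction n with
  | zero => rw [pow_zero]; exact pos_one
  | succ n ih => rw [pow_succ]; exact ih.mul hX

theorem norm_le_of_le {u w : E} (hu : 0 ≤ u) (h : u ≤ w) : ‖u‖ ≤ ‖w‖ :=
  norm_le_norm_of_abs_le_abs (by rw [abs_of_nonneg hu, abs_of_nonneg (hu.trans h)]; exact h)

theorem Pos.norm_le_abs {X : E →L[ℝ] E} (hX : Pos X) (v : E) : ‖X v‖ ≤ ‖X |v|‖ := by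
  refine norm_le_norm_of_abs_le_abs ?_
  rw [abs_of_nonneg (hX _ (abs_nonneg v))]
  refine abs_le'.2 ⟨hX.mono (le_abs_self v), ?_⟩
  rw [← map_neg]
  exact hX.mono (neg_le_abs v)

theorem neumann {X : E →L[ℝ] E} (hX : Pos X) (h : ‖X‖ < 1) :
    ∃ S : E →L[ℝ] E, Pos S ∧ S * (1 - X) = 1 ∧ (1 - X) * S = 1 := by
  refine ⟨∑' n : ℕ, X ^ n, fun x hx => ?_, geom_series_mul_neg X h, mul_neg_geom_series X h⟩
  have h1 := (summable_geometric_of_norm_lt_one h).hasSum
  have h2 := h1.mapL (ContinuousLinearMap.apply ℝ E x)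
  exact HasSum.nonneg (fun n => hX.pow n x hx) h2

namespace Atomic

variable (At : Atomic E I)

theorem le_iff {x y : E} : x ≤ y ↔ ∀ i, At.co i x ≤ At.co i y := by
  rw [← sub_nonneg, At.nonneg_iff]
  simp only [map_sub, sub_nonneg]

theorem ext' {x y : E} (h : ∀ i, At.co i x = At.co i y) : x = y :=
  le_antisymm (At.le_iff.2 fun i => (h i).le) (At.le_iff.2 fun i => (h i).ge)

theorem e_nonneg (i : I) : 0 ≤ At.e i := by
  refine (At.nonneg_iff _).2 fun j => ?_
  by_cases h : j = i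
  · rw [h, At.co_self]; exact zero_le_one
  · rw [At.co_ne _ _ h]

theorem co_nonneg {x : E} (hx : 0 ≤ x) (i : I) : 0 ≤ At.co i x := (At.nonneg_iff _).1 hx i

theorem smul_e_le {x : E} (hx : 0 ≤ x) (i : I) : At.co i x • At.e i ≤ x := by
  refine At.le_iff.2 fun j => ?_
  rw [map_smul, smul_eq_mul]
  by_cases h : j = i
  · rw [h, At.co_self, mul_one]
  · rw [At.co_ne _ _ h, mul_zero]; exact At.co_nonneg hx j

theorem pos_P (S : Set I) : Pos (At.P S) := by
  intro x hx
  refine (At.nonneg_iff _).2 fun i => ?_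
  by_cases h : i ∈ S
  · rw [At.P_in _ _ _ h]; exact At.co_nonneg hx i
  · rw [At.P_out _ _ _ h]

theorem P_e_in {S : Set I} {i : I} (h : i ∈ S) : At.P S (At.e i) = At.e i := by
  refine At.ext' fun j => ?_
  by_cases hj : j ∈ S
  · rw [At.P_in _ _ _ hj]
  · rw [At.P_out _ _ _ hj, At.co_ne j i (fun e => hj (e ▸ h))]

theorem P_e_out {S : Set I} {i : I} (h : i ∉ S) : At.P S (At.e i) = 0 := by
  refine At.ext' fun j => ?_
  rw [map_zero]
  by_cases hj : j ∈ S
  · rw [At.P_in _ _ _ hj, At.co_ne j i (fun e => h (e ▸ hj))]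
  · rw [At.P_out _ _ _ hj]

theorem kill {F : Type} [NormedAddCommGroup F] [NormedSpace ℝ F] (X : E →L[ℝ] F) (x : E)
    (h : ∀ i, At.co i x ≠ 0 → X (At.e i) = 0) : X x = 0 := by
  have h1 : (Submodule.span ℝ (At.e '' {i | At.co i x ≠ 0}) : Set E) ⊆ (X.ker : Set E) := by
    refine Submodule.span_le.2 ?_
    rintro _ ⟨i, hi, rfl⟩
    exact h i hi
  exact closure_minimal h1 X.isClosed_ker (At.dense x)

theorem entry_mul {X Y : E →L[ℝ] E} (hX : Pos X) (hY : Pos Y) (a b c : I) :
    At.co a (X (At.e c)) * At.co c (Y (At.e b)) ≤ At.co a (X (Y (At.e b))) := by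
  have := At.le_iff.1 (hX.mono (At.smul_e_le (hY _ (At.e_nonneg b)) c)) a
  rwa [map_smul, map_smul, smul_eq_mul, mul_comm] at this

theorem strong {l : Filter ℕ} (H : ℕ → E →L[ℝ] E) (hH : ∀ n, ‖H n‖ ≤ 1)
    (h : ∀ j, Tendsto (fun n => H n (At.e j)) l (𝓝 0)) (x : E) :
    Tendsto (fun n => H n x) l (𝓝 0) := by
  let N : Submodule ℝ E :=
    { carrier := {x | Tendsto (fun n => H n x) l (𝓝 0)}
      add_mem' := fun {a b} ha hb => by
        have := Tendsto.add ha hb
        simpa using this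
      zero_mem' := by simp [tendsto_const_nhds]
      smul_mem' := fun c a ha => by
        have := Tendsto.const_smul ha c
        simpa using this }
  have h1 : (Submodule.span ℝ (At.e '' {i | At.co i x ≠ 0}) : Set E) ⊆ (N : Set E) := by
    refine Submodule.span_le.2 ?_
    rintro _ ⟨i, _, rfl⟩
    exact h i
  have h2 : x ∈ closure (N : Set E) := closure_mono h1 (At.dense x)
  rw [NormedAddGroup.tendsto_nhds_zero]
  intro ε hε
  obtain ⟨y, hy, hxy⟩ := Metric.mem_closure_iff.1 h2 (ε / 2) (by positivity)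
  have h3 : Tendsto (fun n => H n y) l (𝓝 0) := hy
  rw [NormedAddGroup.tendsto_nhds_zero] at h3
  filter_upwards [h3 (ε / 2) (by positivity)] with n hn
  have e1 : H n x = H n (x - y) + H n y := by rw [map_sub]; abel
  have e2 : ‖H n (x - y)‖ ≤ ‖x - y‖ := ((H n).le_opNorm _).trans
    (mul_le_of_le_one_left (norm_nonneg _) (hH n))
  rw [dist_eq_norm] at hxy
  rw [e1]
  linarith only [hxy, hn, e2, norm_add_le (H n (x - y)) (H n y)]

theorem res_bound {Q G : E →L[ℝ] E} {t : ℝ} (hQ : Pos Q) (hG : Pos G) (ht : 0 ≤ t)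
    (h : (1 - t • Q) * G = 1) (u : I) : t * At.co u (Q (At.e u)) < 1 := by
  have e1 : G (At.e u) - t • Q (G (At.e u)) = At.e u := by
    have := congrArg (fun X : E →L[ℝ] E => X (At.e u)) h
    simpa using this
  have e2 := congrArg (At.co u) e1
  rw [map_sub, map_smul, smul_eq_mul, At.co_self] at e2
  have e3 := At.entry_mul hQ hG u u u
  have e4 := At.co_nonneg (hG _ (At.e_nonneg u)) u
  by_contra hge
  have e5 : At.co u (G (At.e u)) ≤ t * At.co u (Q (At.e u)) * At.co u (G (At.e u)) :=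
    le_mul_of_one_le_left e4 (not_lt.1 hge)
  have e6 := mul_le_mul_of_nonneg_left e3 ht
  linarith only [e2, e5, e6]

theorem unbounded {Q : E →L[ℝ] E} (hQ : Pos Q) (u : I) (hu : 0 < At.co u (Q (At.e u))) (Γ : ℝ) :
    ∃ (t : ℝ) (G : E →L[ℝ] E), 0 ≤ t ∧ Pos G ∧ G * (1 - t • Q) = 1 ∧ (1 - t • Q) * G = 1 ∧
      Γ < ‖G‖ := by
  by_contra hno
  push Not at hno
  set h : ℝ := 1 / (|Γ| * ‖Q‖ + 1) with hh
  have hpos : 0 < |Γ| * ‖Q‖ + 1 := by positivity
  have hh0 : 0 < h := by positivity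
  have key : ∀ k : ℕ, ∃ G : E →L[ℝ] E, Pos G ∧ G * (1 - (k * h) • Q) = 1 ∧
      (1 - (k * h) • Q) * G = 1 := by
    intro k
    induction k with
    | zero => exact ⟨1, pos_one, by simp, by simp⟩
    | succ k ih =>
      obtain ⟨G, hG, h1, h2⟩ := ih
      have hb := hno _ G (by positivity) hG h1 h2
      have hX : ‖h • (G * Q)‖ < 1 := by
        rw [norm_smul, Real.norm_of_nonneg hh0.le, hh, one_div, inv_mul_lt_iff₀ hpos]
        have := (norm_mul_le G Q).trans
          (mul_le_mul_of_nonneg_right (hb.trans (le_abs_self Γ)) (norm_nonneg Q))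
        linarith only [this]
      obtain ⟨S, hS, s1, s2⟩ := neumann ((hG.mul hQ).smul hh0.le) hX
      have fac : (1 - (((k + 1 : ℕ) : ℝ) * h) • Q) = (1 - (k * h) • Q) * (1 - h • (G * Q)) := by
        rw [mul_sub, mul_one, mul_smul_comm, ← mul_assoc, h2, one_mul]
        push_cast
        rw [add_mul, one_mul, add_smul]; abel
      refine ⟨S * G, hS.mul hG, ?_, ?_⟩
      · rw [fac, mul_assoc, ← mul_assoc G, h1, one_mul, s1]
      · rw [fac, mul_assoc, ← mul_assoc _ S, s2, one_mul, h2]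
  obtain ⟨k, hk⟩ := exists_nat_ge (1 / (h * At.co u (Q (At.e u))))
  obtain ⟨G, hG, _, h2⟩ := key k
  have := At.res_bound hQ hG (by positivity) h2 u
  rw [div_le_iff₀ (by positivity)] at hk
  linarith only [hk, this]

/-- A Krein-Rutman type argument: an irreducible compact positive operator has no strictly
positive semi-commutator with a positive operator. -/
theorem no_gap {Q D Y : E →L[ℝ] E} (hQ : Pos Q) (hc : IsCompactOperator Q) (K : Set I)
    (hK1 : ∀ j, j ∉ K → Q (At.e j) = 0) (hK2 : ∀ i, i ∉ K → ∀ x, At.co i (Q x) = 0)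
    (u : I) (hu : 0 < At.co u (Q (At.e u))) (hD : Pos D)
    (hDK : ∀ i ∈ K, ∀ j ∈ K, 0 < At.co j (D (At.e i))) (hY : Pos Y)
    (hcomm : (∀ x, 0 ≤ x → D x ≤ Q (Y x) - Y (Q x)) ∨ (∀ x, 0 ≤ x → D x ≤ Y (Q x) - Q (Y x))) :
    False := by
  choose t G ht hG h1 h2 hΓ using fun n : ℕ => At.unbounded hQ u hu ((n : ℝ) + 4)
  have hγ : ∀ n, 0 < ‖G n‖ := fun n => lt_trans (by positivity) (hΓ n)
  have hv : ∀ n, ∃ v : E, 0 ≤ v ∧ ‖v‖ ≤ 1 ∧ ‖G n‖ / 2 ≤ ‖G n v‖ := by
    intro n
    obtain ⟨x, hx, hx2⟩ := (G n).exists_lt_apply_of_lt_opNorm (r := ‖G n‖ / 2)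
      (by linarith only [hγ, hγ n])
    exact ⟨|x|, abs_nonneg x, by rw [norm_abs_eq_norm]; exact hx.le,
      hx2.le.trans ((hG n).norm_le_abs x)⟩
  choose v hv0 hv1 hv2 using hv
  set γ : ℕ → ℝ := fun n => ‖G n‖⁻¹ with hγdef
  have hγ0 : ∀ n, 0 < γ n := fun n => inv_pos.2 (hγ n)
  have hγ4 : ∀ n, γ n ≤ 1 / 4 := fun n => by
    rw [hγdef, one_div]
    exact inv_anti₀ (by norm_num) (by have := hΓ n; have : (0 : ℝ) ≤ n := Nat.cast_nonneg n; linarith)
  have hγlim : Tendsto γ atTop (𝓝 0) := by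
    refine tendsto_inv_atTop_zero.comp (tendsto_atTop_mono (fun n => ?_) tendsto_natCast_atTop_atTop)
    have := hΓ n; linarith
  set H : ℕ → E →L[ℝ] E := fun n => γ n • G n with hHdef
  have hH : ∀ n, ‖H n‖ ≤ 1 := fun n => by
    rw [hHdef]; simp only [norm_smul, Real.norm_of_nonneg (hγ0 n).le]
    exact (inv_mul_cancel₀ (hγ n).ne').le
  have hHp : ∀ n, Pos (H n) := fun n => (hG n).smul (hγ0 n).le
  have hHle : ∀ n x, ‖H n x‖ ≤ ‖x‖ := fun n x => ((H n).le_opNorm _).trans
    (mul_le_of_le_one_left (norm_nonneg _) (hH n))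
  set y : ℕ → E := fun n => H n (v n) with hydef
  have hy0 : ∀ n, 0 ≤ y n := fun n => hHp n _ (hv0 n)
  have hy1 : ∀ n, ‖y n‖ ≤ 1 := fun n => (hHle n _).trans (hv1 n)
  have hy2 : ∀ n, 1 / 2 ≤ ‖y n‖ := fun n => by
    have : ‖y n‖ = γ n * ‖G n (v n)‖ := by
      simp only [hydef, hHdef, smul_apply, norm_smul,
        Real.norm_of_nonneg (hγ0 n).le]
    rw [this]
    have e1 : γ n * ‖G n‖ = 1 := inv_mul_cancel₀ (hγ n).ne'
    have e2 := mul_le_mul_of_nonneg_left (hv2 n) (hγ0 n).le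
    linarith only [e1, e2]
  have eqA : ∀ n x, H n x = γ n • x + t n • Q (H n x) := fun n x => by
    have : G n x - t n • Q (G n x) = x := congrArg (fun X : E →L[ℝ] E => X x) (h2 n)
    simp only [hHdef, smul_apply, map_smul]
    rw [smul_comm (t n), ← smul_add]
    exact congrArg _ (sub_eq_iff_eq_add.1 this)
  have eqB : ∀ n x, H n x = γ n • x + t n • H n (Q x) := fun n x => by
    have : G n (x - t n • Q x) = x := congrArg (fun X : E →L[ℝ] E => X x) (h1 n)
    rw [map_sub, map_smul] at this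
    simp only [hHdef, smul_apply]
    rw [smul_comm (t n), ← smul_add, ← sub_eq_iff_eq_add.1 this]
  have hγv : ∀ n, ‖γ n • v n‖ ≤ γ n := fun n => by
    rw [norm_smul, Real.norm_of_nonneg (hγ0 n).le]
    exact mul_le_of_le_one_right (hγ0 n).le (hv1 n)
  set τ : ℝ := 1 / At.co u (Q (At.e u)) with hτ
  have htτ : ∀ n, t n ≤ τ := fun n => by
    rw [hτ, le_div_iff₀ hu]; exact (At.res_bound hQ (hG n) (ht n) (h2 n) u).le
  have htlow : ∀ n, 1 / 4 ≤ t n * ‖Q‖ := fun n => by
    have e1 := norm_add_le (γ n • v n) (t n • Q (H n (v n)))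
    rw [← eqA n (v n), norm_smul (t n), Real.norm_of_nonneg (ht n)] at e1
    have e2 : ‖Q (y n)‖ ≤ ‖Q‖ := (Q.le_opNorm _).trans
      (mul_le_of_le_one_right (norm_nonneg _) (hy1 n))
    have e3 := mul_le_mul_of_nonneg_left e2 (ht n)
    have := hy2 n; have := hγv n; have := hγ4 n
    simp only [hydef] at *
    linarith
  obtain ⟨C, hC, hCs⟩ := IsCompactOperator.image_closedBall_subset_compact
    (f := (Q : E →ₗ[ℝ] E)) hc (|τ| + 1)
  let 𝒰 : Ultrafilter ℕ := hyperfilter ℕ
  have h𝒰 : (𝒰 : Filter ℕ) ≤ atTop := by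
    rw [← Nat.cofinite_eq_atTop]; exact hyperfilter_le_cofinite
  have lim : ∀ w : ℕ → E, (∀ n, ‖w n‖ ≤ |τ| + 1) → ∃ p, Tendsto (fun n => Q (w n)) 𝒰 (𝓝 p) := by
    intro w hw
    obtain ⟨p, _, hp⟩ := hC.ultrafilter_le_nhds' (𝒰.map fun n => Q (w n))
      (Ultrafilter.mem_map.2 (univ_mem' fun n => hCs ⟨w n, mem_closedBall_zero_iff.2 (hw n), rfl⟩))
    exact ⟨p, hp⟩
  obtain ⟨p, hp⟩ := lim (fun n => t n • y n) fun n => by
    rw [norm_smul, Real.norm_of_nonneg (ht n)]
    have := mul_le_of_le_one_right (ht n) (hy1 n)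
    linarith only [this, htτ, htτ n, le_abs_self τ]
  obtain ⟨p', hp'⟩ := lim v fun n => by linarith only [hv1, hv1 n, abs_nonneg τ]
  have hγvlim : Tendsto (fun n => γ n • v n) 𝒰 (𝓝 0) :=
    squeeze_zero_norm hγv (hγlim.mono_left h𝒰)
  have hyp : Tendsto y 𝒰 (𝓝 p) := by
    have := hγvlim.add hp
    rw [zero_add] at this
    refine this.congr fun n => ?_
    rw [map_smul]; exact (eqA n (v n)).symm
  have hp2 : 1 / 2 ≤ ‖p‖ := ge_of_tendsto' hyp.norm hy2
  obtain ⟨i, hi⟩ : ∃ i, At.co i p ≠ 0 := by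
    by_contra hno
    push Not at hno
    have : p = 0 := At.ext' fun i => by rw [hno i, map_zero]
    rw [this, norm_zero] at hp2; linarith only [hp2]
  have hiK : i ∈ K := by
    by_contra hno
    have e1 := ((At.co i).continuous.tendsto p).comp hp
    have e2 : (At.co i ∘ fun n => Q (t n • y n)) = fun _ => 0 := funext fun n => hK2 i hno _
    rw [e2] at e1
    exact hi (tendsto_nhds_unique e1 tendsto_const_nhds)
  have hyi := ((At.co i).continuous.tendsto p).comp hyp
  have hi0 : 0 < At.co i p :=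
    lt_of_le_of_ne (ge_of_tendsto' hyi fun n => At.co_nonneg (hy0 n) i) hi.symm
  have hev : ∀ᶠ n in 𝒰, At.co i p / 2 < At.co i (y n) :=
    hyi.eventually (lt_mem_nhds (by linarith only [hi0]))
  have hbound : ∀ n, ‖t n • H n (D (y n))‖ ≤ γ n * ‖Y‖ := fun n => by
    have pos1 : 0 ≤ t n • H n (D (y n)) := smul_nonneg (ht n) (hHp n _ (hD _ (hy0 n)))
    have eq1 : t n • H n (Q (Y (y n))) - t n • H n (Y (Q (y n)))
        = γ n • H n (Y (v n)) - γ n • Y (y n) := by
      have a1 := eqB n (Y (y n))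
      have a2 := congrArg (fun x => H n (Y x)) (eqA n (v n))
      simp only [map_add, map_smul] at a2
      have a3 : H n (Y (y n)) = γ n • H n (Y (v n)) + t n • H n (Y (Q (y n))) := a2
      rw [sub_eq_sub_iff_add_eq_add, add_comm, ← a1, a3]
    have p1 : 0 ≤ γ n • H n (Y (v n)) := smul_nonneg (hγ0 n).le (hHp n _ (hY _ (hv0 n)))
    have p2 : 0 ≤ γ n • Y (y n) := smul_nonneg (hγ0 n).le (hY _ (hy0 n))
    rcases hcomm with hcm | hcm
    · have e1 := smul_le_smul_of_nonneg_left ((hHp n).mono (hcm _ (hy0 n))) (ht n)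
      rw [map_sub, smul_sub, eq1] at e1
      refine (norm_le_of_le pos1 (e1.trans (sub_le_self _ p2))).trans ?_
      rw [norm_smul, Real.norm_of_nonneg (hγ0 n).le]
      refine mul_le_mul_of_nonneg_left ((hHle n _).trans ((Y.le_opNorm _).trans ?_)) (hγ0 n).le
      exact mul_le_of_le_one_right (norm_nonneg _) (hv1 n)
    · have e1 := smul_le_smul_of_nonneg_left ((hHp n).mono (hcm _ (hy0 n))) (ht n)
      rw [map_sub, smul_sub, ← neg_sub, eq1, neg_sub] at e1
      refine (norm_le_of_le pos1 (e1.trans (sub_le_self _ p1))).trans ?_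
      rw [norm_smul, Real.norm_of_nonneg (hγ0 n).le]
      refine mul_le_mul_of_nonneg_left ((Y.le_opNorm _).trans ?_) (hγ0 n).le
      exact mul_le_of_le_one_right (norm_nonneg _) (hy1 n)
  have hQ0 : 0 < ‖Q‖ := by
    by_contra hle
    have := htlow 0
    have e : ‖Q‖ = 0 := le_antisymm (not_lt.1 hle) (norm_nonneg _)
    rw [e] at this; linarith only [this]
  have hej : ∀ j, Tendsto (fun n => H n (At.e j)) 𝒰 (𝓝 0) := by
    intro j
    by_cases hj : j ∈ K
    · have hd := hDK i hiK j hj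
      set c : ℝ := 1 / 4 / ‖Q‖ * (At.co i p / 2 * At.co j (D (At.e i))) with hcdef
      have hc0 : 0 < c := by positivity
      have hl : Tendsto (fun n => γ n * ‖Y‖ / c) 𝒰 (𝓝 0) := by
        have := ((hγlim.mono_left h𝒰).mul_const ‖Y‖).div_const c
        simpa using this
      refine squeeze_zero_norm' ?_ hl
      filter_upwards [hev] with n hn
      rw [le_div_iff₀ hc0]
      refine le_trans ?_ (hbound n)
      have hyi0 := At.co_nonneg (hy0 n) i
      have e1 : (At.co i (y n) * At.co j (D (At.e i))) • At.e j ≤ D (y n) := by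
        refine le_trans ?_ (hD.mono (At.smul_e_le (hy0 n) i))
        rw [map_smul, mul_smul]
        exact smul_le_smul_of_nonneg_left (At.smul_e_le (hD _ (At.e_nonneg i)) j) hyi0
      have e2 := smul_le_smul_of_nonneg_left ((hHp n).mono e1) (ht n)
      rw [map_smul, smul_smul] at e2
      have e0 : 0 ≤ t n * (At.co i (y n) * At.co j (D (At.e i))) :=
        mul_nonneg (ht n) (mul_nonneg hyi0 hd.le)
      have e3 := norm_le_of_le (smul_nonneg e0 (hHp n _ (At.e_nonneg j))) e2
      rw [norm_smul, Real.norm_of_nonneg e0] at e3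
      refine le_trans ?_ e3
      rw [mul_comm]
      refine mul_le_mul_of_nonneg_right ?_ (norm_nonneg _)
      refine mul_le_mul ?_ (mul_le_mul_of_nonneg_right hn.le hd.le) (by positivity) (ht n)
      rw [div_le_iff₀ hQ0]; exact htlow n
    · have : (fun n => H n (At.e j)) = fun n => γ n • At.e j := funext fun n => by
        rw [eqB n, hK1 j hj, map_zero, smul_zero, add_zero]
      rw [this]
      have := (hγlim.mono_left h𝒰).smul_const (At.e j)
      rwa [zero_smul] at this
  have hp'0 := At.strong H hH hej p'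
  have hlast : Tendsto (fun n => H n (Q (v n))) 𝒰 (𝓝 0) := by
    have e1 : Tendsto (fun n => H n (Q (v n) - p')) 𝒰 (𝓝 0) :=
      squeeze_zero_norm (fun n => hHle n _) (tendsto_iff_norm_sub_tendsto_zero.1 hp')
    have := e1.add hp'0
    rw [zero_add] at this
    exact this.congr fun n => by rw [map_sub, sub_add_cancel]
  have hlast2 : Tendsto (fun n => t n • H n (Q (v n))) 𝒰 (𝓝 0) := by
    have e1 := (tendsto_zero_iff_norm_tendsto_zero.1 hlast).const_mul τ
    rw [mul_zero] at e1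
    refine squeeze_zero_norm (fun n => ?_) e1
    rw [norm_smul, Real.norm_of_nonneg (ht n)]
    exact mul_le_mul_of_nonneg_right (htτ n) (norm_nonneg _)
  have hy00 : Tendsto y 𝒰 (𝓝 0) := by
    have := hγvlim.add hlast2
    rw [zero_add] at this
    exact this.congr fun n => (eqB n (v n)).symm
  rw [tendsto_nhds_unique hyp hy00, norm_zero] at hp2
  linarith only [hp2]

/-- Triangularity: a positive commutator vanishes inside a communicating class. -/
theorem triangular {A B : E →L[ℝ] E} (hA : Pos A) (hB : Pos B) (hC : Pos (A * B - B * A))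
    (hc : IsCompactOperator A ∨ IsCompactOperator B) (u w : I)
    (huw : 0 < At.co w ((A * B - B * A) (At.e u))) :
    At.co u (A (At.e w)) = 0 ∧ At.co u (B (At.e w)) = 0 := by
  by_contra hno
  have hT : 0 < At.co u ((A + B) (At.e w)) := by
    have a1 := At.co_nonneg (hA _ (At.e_nonneg w)) u
    have a2 := At.co_nonneg (hB _ (At.e_nonneg w)) u
    rw [add_apply, map_add]
    by_contra hle
    exact hno ⟨by linarith, by linarith⟩
  let step : I → I → Prop := fun b a => 0 < At.co a ((A + B) (At.e b))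
  let R : I → I → Prop := Relation.ReflTransGen step
  let K : Set I := {z | R u z ∧ R z u}
  have stepA : ∀ b a, At.co a (A (At.e b)) ≠ 0 → step b a := fun b a h => by
    have a1 := At.co_nonneg (hA _ (At.e_nonneg b)) a
    have a2 := At.co_nonneg (hB _ (At.e_nonneg b)) a
    have a3 := lt_of_le_of_ne a1 h.symm
    show 0 < At.co a ((A + B) (At.e b))
    rw [add_apply, map_add]; linarith
  have stepB : ∀ b a, At.co a (B (At.e b)) ≠ 0 → step b a := fun b a h => by
    have a1 := At.co_nonneg (hA _ (At.e_nonneg b)) a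
    have a2 := At.co_nonneg (hB _ (At.e_nonneg b)) a
    have a3 := lt_of_le_of_ne a2 h.symm
    show 0 < At.co a ((A + B) (At.e b))
    rw [add_apply, map_add]; linarith
  obtain ⟨z, hz1, hz2⟩ : ∃ z, At.co z (B (At.e u)) ≠ 0 ∧ At.co w (A (At.e z)) ≠ 0 := by
    by_contra hn
    push Not at hn
    have e1 : At.co w (A (B (At.e u))) = 0 := At.kill ((At.co w).comp A) _ hn
    have e2 := At.co_nonneg (hB _ (hA _ (At.e_nonneg u))) w
    have e3 : At.co w ((A * B - B * A) (At.e u))
        = At.co w (A (B (At.e u))) - At.co w (B (A (At.e u))) := map_sub _ _ _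
    linarith
  have huK : u ∈ K := ⟨Relation.ReflTransGen.refl, Relation.ReflTransGen.refl⟩
  have hwu : R w u := Relation.ReflTransGen.single hT
  have hzK : z ∈ K := ⟨Relation.ReflTransGen.single (stepB _ _ hz1),
    (Relation.ReflTransGen.single (stepA _ _ hz2)).trans hwu⟩
  have hwK : w ∈ K := ⟨hzK.1.tail (stepA _ _ hz2), hwu⟩
  set P := At.P K with hPdef
  have hP : Pos P := At.pos_P K
  have PP : P * P = P := ContinuousLinearMap.ext fun x => At.ext' fun i => by
    by_cases hi : i ∈ K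
    · exact At.P_in _ _ _ hi
    · exact (At.P_out _ _ _ hi).trans (At.P_out _ _ _ hi).symm
  have comp : ∀ X Y : E →L[ℝ] E, (∀ b a, At.co a (X (At.e b)) ≠ 0 → step b a) →
      (∀ b a, At.co a (Y (At.e b)) ≠ 0 → step b a) →
      (P * X * P) * (P * Y * P) = P * (X * Y) * P := by
    intro X Y hX hY
    have key : P * X * (1 - P) * Y * P = 0 := by
      refine ContinuousLinearMap.ext fun x => ?_
      refine At.kill (P * X * (1 - P) * Y) (P x) fun i hi => ?_
      have hiK : i ∈ K := by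
        by_contra h; exact hi (At.P_out _ _ _ h)
      refine At.kill (P * X) ((1 - P) (Y (At.e i))) fun j hj => ?_
      have e0 : At.co j ((1 - P) (Y (At.e i))) = At.co j (Y (At.e i)) - At.co j (P (Y (At.e i))) :=
        map_sub _ _ _
      have hjK : j ∉ K := fun h => hj (by rw [e0, hPdef, At.P_in _ _ _ h, sub_self])
      rw [e0, hPdef, At.P_out _ _ _ hjK, sub_zero] at hj
      have huj : R u j := hiK.1.tail (hY _ _ hj)
      refine At.ext' fun a => ?_
      rw [map_zero]
      by_cases ha : a ∈ K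
      · refine (At.P_in _ _ _ ha).trans ?_
        by_contra hne
        exact hjK ⟨huj, (Relation.ReflTransGen.single (hX _ _ hne)).trans ha.2⟩
      · exact At.P_out _ _ _ ha
    have : (P * X * P) * (P * Y * P) = P * X * (P * P) * Y * P := by noncomm_ring
    rw [this, PP]
    have e2 : P * X * (1 - P) * Y * P = P * (X * Y) * P - P * X * P * Y * P := by noncomm_ring
    rw [e2, sub_eq_zero] at key
    exact key.symm
  set A' := P * A * P with hA'def
  set B' := P * B * P with hB'def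
  have hA' : Pos A' := (hP.mul hA).mul hP
  have hB' : Pos B' := (hP.mul hB).mul hP
  set C' := P * (A * B - B * A) * P with hC'def
  have hC' : Pos C' := (hP.mul hC).mul hP
  have hcomm : A' * B' - B' * A' = C' := by
    rw [hA'def, hB'def, comp A B stepA stepB, comp B A stepB stepA, hC'def]; noncomm_ring
  have entry : ∀ (X : E →L[ℝ] E) a b, a ∈ K → b ∈ K →
      At.co a ((P * X * P) (At.e b)) = At.co a (X (At.e b)) := fun X a b ha hb => by
    show At.co a (At.P K (X (At.P K (At.e b)))) = _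
    rw [At.P_in _ _ _ ha, At.P_e_in hb]
  have outL : ∀ (X : E →L[ℝ] E) i, i ∉ K → ∀ x, At.co i ((P * X * P) x) = 0 :=
    fun X i hi x => At.P_out _ _ _ hi
  have outR : ∀ (X : E →L[ℝ] E) j, j ∉ K → (P * X * P) (At.e j) = 0 := fun X j hj => by
    show At.P K (X (At.P K (At.e j))) = 0
    rw [At.P_e_out hj, map_zero, map_zero]
  set r : ℝ := 1 / (‖A' + B'‖ + 1) with hr
  have hr0 : 0 < r := by positivity
  have hXn : ‖r • (A' + B')‖ < 1 := by
    rw [norm_smul, Real.norm_of_nonneg hr0.le, hr, one_div, inv_mul_lt_iff₀ (by positivity)]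
    linarith only []
  set X := r • (A' + B') with hXdef
  have hX : Pos X := (hA'.add hB').smul hr0.le
  obtain ⟨S, hS, s1, s2⟩ := neumann hX hXn
  have hXP : X = P * (r • (A + B)) * P := by
    rw [hXdef, hA'def, hB'def, mul_smul_comm, smul_mul_assoc, mul_add, add_mul]
  have sA : ∀ x, S x = x + X (S x) := fun x =>
    sub_eq_iff_eq_add.1 (congrArg (fun T : E →L[ℝ] E => T x) s2)
  have sB : ∀ x, S x = x + S (X x) := fun x => by
    have : S (x - X x) = x := congrArg (fun T : E →L[ℝ] E => T x) s1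
    rw [map_sub] at this
    exact sub_eq_iff_eq_add.1 this
  have Spos : ∀ b ∈ K, ∀ a, R b a → a ∈ K → 0 < At.co a (S (At.e b)) := by
    intro b hb a hab
    induction hab with
    | refl =>
      intro _
      rw [sA, map_add, At.co_self]
      have := At.co_nonneg (hX _ (hS _ (At.e_nonneg b))) b
      linarith
    | @tail c a hbc hca ih =>
      intro ha
      have hcK : c ∈ K := ⟨hb.1.trans hbc, (Relation.ReflTransGen.single hca).trans ha.2⟩
      have e1 := At.entry_mul hX hS a b c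
      have e2 : 0 < At.co a (X (At.e c)) := by
        rw [hXP, entry _ _ _ ha hcK, smul_apply, map_smul, smul_eq_mul]
        exact mul_pos hr0 hca
      have e3 := mul_pos e2 (ih hcK)
      have e4 := At.co_nonneg (At.e_nonneg b) a
      rw [sA, map_add]
      linarith only [e1, e3, e4]
  have Spos' : ∀ a ∈ K, ∀ b ∈ K, 0 < At.co a (S (At.e b)) := fun a ha b hb =>
    Spos b hb a (hb.2.trans ha.1) ha
  have sand : ∀ Z : E →L[ℝ] E, Pos Z → ∀ a ∈ K, ∀ b ∈ K, 0 < At.co a (Z (At.e b)) →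
      ∀ i ∈ K, ∀ j ∈ K, 0 < At.co j ((S * Z * S) (At.e i)) := by
    intro Z hZ a ha b hb hab i hi j hj
    have e1 := At.entry_mul hZ hS a i b
    have e2 := At.entry_mul hS (hZ.mul hS) j i a
    have e3 : 0 < At.co a (Z (S (At.e i))) := (mul_pos hab (Spos' b hb i hi)).trans_le e1
    exact (mul_pos (Spos' j hj a ha) e3).trans_le e2
  have Q1 : ∀ (Z : E →L[ℝ] E) j, j ∉ K → (S * (P * Z * P) * S) (At.e j) = 0 := fun Z j hj => by
    have : S (At.e j) = At.e j := by rw [sB, hXP, outR _ _ hj, map_zero, add_zero]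
    show S ((P * Z * P) (S (At.e j))) = 0
    rw [this, outR _ _ hj, map_zero]
  have Q2 : ∀ (Z : E →L[ℝ] E) i, i ∉ K → ∀ x, At.co i ((S * (P * Z * P) * S) x) = 0 :=
    fun Z i hi x => by
      show At.co i (S ((P * Z * P) (S x))) = 0
      rw [sA, map_add, outL _ _ hi, hXP, outL _ _ hi, add_zero]
  have cpt : ∀ Z : E →L[ℝ] E, IsCompactOperator Z → IsCompactOperator (S * (P * Z * P) * S) :=
    fun Z hZ => (hZ.comp_clm (P * S)).clm_comp (S * P)
  have hD : Pos (S * C' * S) := (hS.mul hC').mul hS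
  have hDK := sand C' hC' w hwK u huK (by rw [hC'def, entry _ _ _ hwK huK]; exact huw)
  set Δ := r • (S * C' * S) with hΔdef
  have hΔ : Pos Δ := hD.smul hr0.le
  have swap : ∀ Z : E →L[ℝ] E, S * Z - Z * S = S * (X * Z - Z * X) * S := fun Z => by
    have : S * (X * Z - Z * X) * S = S * Z * ((1 - X) * S) - (S * (1 - X)) * Z * S := by
      noncomm_ring
    rw [this, s1, s2, mul_one, one_mul]
  have dB : S * B' - B' * S = Δ := by
    rw [swap, hΔdef, ← hcomm, hXdef]
    simp only [smul_mul_assoc, mul_smul_comm, ← smul_sub]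
    congr 1; noncomm_ring
  have dA : A' * S - S * A' = Δ := by
    rw [← neg_sub, swap, hΔdef, ← hcomm, hXdef]
    simp only [smul_mul_assoc, mul_smul_comm, ← smul_sub, ← smul_neg]
    congr 1; noncomm_ring
  rcases hc with hc | hc
  · refine At.no_gap ((hS.mul hA').mul hS) (cpt A hc) K (Q1 A) (Q2 A) u
      (sand A' hA' w hwK z hzK (by
        rw [hA'def, entry _ _ _ hwK hzK]
        exact lt_of_le_of_ne (At.co_nonneg (hA _ (At.e_nonneg z)) w) hz2.symm) u huK u huK)
      hD hDK hB' (Or.inl fun x hx => ?_)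
    have id1 : (S * A' * S) * B' - B' * (S * A' * S) = S * C' * S + (S * A' * Δ + Δ * A' * S) := by
      rw [← hcomm, ← dB]; noncomm_ring
    have e1 : (S * A' * S) (B' x) - B' ((S * A' * S) x)
        = (S * C' * S) x + (S * A' * Δ + Δ * A' * S) x :=
      congrArg (fun T : E →L[ℝ] E => T x) id1
    rw [e1]
    exact le_add_of_nonneg_right ((((hS.mul hA').mul hΔ).add ((hΔ.mul hA').mul hS)) x hx)
  · refine At.no_gap ((hS.mul hB').mul hS) (cpt B hc) K (Q1 B) (Q2 B) u
      (sand B' hB' z hzK u huK (by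
        rw [hB'def, entry _ _ _ hzK huK]
        exact lt_of_le_of_ne (At.co_nonneg (hB _ (At.e_nonneg u)) z) hz1.symm) u huK u huK)
      hD hDK hA' (Or.inr fun x hx => ?_)
    have id1 : A' * (S * B' * S) - (S * B' * S) * A' = S * C' * S + (Δ * B' * S + S * B' * Δ) := by
      rw [← hcomm, ← dA]; noncomm_ring
    have e1 : A' ((S * B' * S) x) - (S * B' * S) (A' x)
        = (S * C' * S) x + (Δ * B' * S + S * B' * Δ) x :=
      congrArg (fun T : E →L[ℝ] E => T x) id1
    rw [e1]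
    exact le_add_of_nonneg_right ((((hΔ.mul hB').mul hS).add ((hS.mul hB').mul hΔ)) x hx)

end Atomic

end Pool.Agent.Work.MP_4e33a2_an
end

-- merged part: Pool.Agent.Work.MP_4e33a2_an.Space
section
set_option autoImplicit false
set_option linter.unusedSectionVars false

namespace Pool.Agent.Work.MP_4e33a2_an

open Finset Filter Topology
open scoped NNReal

/-- A finite set with a norming family of subsets and an acyclic digraph adapted to it. -/
structure Blk where
  V : Type
  fin : Fintype V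
  dec : DecidableEq V
  Φ : Finset (Finset V)
  Ed : V → V → Prop
  lev : V → ℕ
  cover : ∀ w, ∃ S ∈ Φ, w ∈ S
  lev_lt : ∀ x y, Ed x y → lev x < lev y
  back : ∀ S ∈ Φ, ∀ x y, y ∈ S → Ed x y → x ∈ S
  uniq : ∀ S ∈ Φ, ∀ x y y', y ∈ S → y' ∈ S → Ed x y → Ed x y' → y = y'

namespace Blk

instance (β : Blk) : Fintype β.V := β.fin
instance (β : Blk) : DecidableEq β.V := β.dec

/-- The finite-dimensional lattice of a block. -/
def F (β : Blk) : Type := β.V → ℝ

variable (β : Blk)

instance : AddCommGroup β.F := inferInstanceAs (AddCommGroup (β.V → ℝ))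
noncomputable instance : Module ℝ β.F := inferInstanceAs (Module ℝ (β.V → ℝ))
noncomputable instance : Lattice β.F := inferInstanceAs (Lattice (β.V → ℝ))
instance : IsOrderedAddMonoid β.F := inferInstanceAs (IsOrderedAddMonoid (β.V → ℝ))
instance : FiniteDimensional ℝ β.F := inferInstanceAs (FiniteDimensional ℝ (β.V → ℝ))

/-- The block norm. -/
noncomputable def N (v : β.V → ℝ) : ℝ := ((β.Φ.sup fun S => ∑ w ∈ S, ‖v w‖₊ : ℝ≥0) : ℝ)

variable {β}

theorem le_N (v : β.V → ℝ) {S : Finset β.V} (hS : S ∈ β.Φ) : ∑ w ∈ S, |v w| ≤ β.N v := by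
  have := Finset.le_sup (f := fun S => ∑ w ∈ S, ‖v w‖₊) hS
  have h2 : ((∑ w ∈ S, ‖v w‖₊ : ℝ≥0) : ℝ) ≤ β.N v := NNReal.coe_le_coe.2 this
  simpa using h2

theorem N_nonneg (v : β.V → ℝ) : 0 ≤ β.N v := NNReal.coe_nonneg _

theorem N_le (v : β.V → ℝ) {c : ℝ} (hc : 0 ≤ c) (h : ∀ S ∈ β.Φ, ∑ w ∈ S, |v w| ≤ c) :
    β.N v ≤ c := by
  lift c to ℝ≥0 using hc
  have : (β.Φ.sup fun S => ∑ w ∈ S, ‖v w‖₊) ≤ c := by
    refine Finset.sup_le fun S hS => NNReal.coe_le_coe.1 ?_
    simpa using h S hS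
  exact NNReal.coe_le_coe.2 this

theorem abs_le_N (v : β.V → ℝ) (w : β.V) : |v w| ≤ β.N v := by
  obtain ⟨S, hS, hw⟩ := β.cover w
  exact (single_le_sum (f := fun w => |v w|) (fun _ _ => abs_nonneg _) hw).trans (le_N v hS)

theorem N_mono {v v' : β.V → ℝ} (h : ∀ w, |v w| ≤ |v' w|) : β.N v ≤ β.N v' :=
  N_le v (N_nonneg _) fun _ hS => (sum_le_sum fun w _ => h w).trans (le_N v' hS)

noncomputable instance : NormedAddCommGroup β.F :=
  AddGroupNorm.toNormedAddCommGroup
    { toFun := fun v => β.N v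
      map_zero' := le_antisymm (N_le _ le_rfl fun S _ => by
        have : ∀ w, (0 : β.F) w = 0 := fun _ => rfl
        simp [this]) (N_nonneg _)
      add_le' := fun v v' => N_le _ (add_nonneg (N_nonneg _) (N_nonneg _)) fun S hS => by
        refine le_trans (sum_le_sum fun w _ => abs_add_le (v w) (v' w)) ?_
        rw [sum_add_distrib]
        exact add_le_add (le_N v hS) (le_N v' hS)
      neg' := fun v => le_antisymm (N_mono fun w => (abs_neg (v w)).le)
        (N_mono fun w => (abs_neg (v w)).ge)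
      eq_zero_of_map_eq_zero' := fun v hv => funext fun w =>
        abs_nonpos_iff.1 ((abs_le_N v w).trans hv.le) }

theorem norm_def (v : β.F) : ‖v‖ = β.N v := rfl

noncomputable instance : NormedSpace ℝ β.F where
  norm_smul_le a v := N_le _ (mul_nonneg (norm_nonneg _) (N_nonneg _)) fun S hS => by
    have : ∀ w, |(a • v) w| = ‖a‖ * |v w| := fun w => abs_mul a (v w)
    simp only [this]
    rw [← mul_sum]
    exact mul_le_mul_of_nonneg_left (le_N v hS) (norm_nonneg _)

instance : HasSolidNorm β.F where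
  solid := fun _ _ h => N_mono fun w => h w

instance : CompleteSpace β.F := FiniteDimensional.complete ℝ _

open Classical in
/-- The adjacency operator of the digraph. -/
noncomputable def adj (β : Blk) : β.F →L[ℝ] β.F :=
  LinearMap.mkContinuous
    { toFun := fun v y => ∑ x ∈ univ.filter fun x => β.Ed x y, v x
      map_add' := fun v v' => funext fun y => sum_add_distrib
      map_smul' := fun a v => funext fun y => (mul_sum _ _ a).symm } 1 fun v => by
    rw [one_mul]
    refine N_le _ (N_nonneg _) fun S hS => le_trans ?_ (le_N v hS)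
    calc ∑ y ∈ S, |∑ x ∈ univ.filter fun x => β.Ed x y, v x|
        ≤ ∑ y ∈ S, ∑ x ∈ univ.filter fun x => β.Ed x y, |v x| :=
          sum_le_sum fun y _ => abs_sum_le_sum_abs _ _
      _ = ∑ x, ∑ y ∈ S.filter fun y => β.Ed x y, |v x| := by
          refine sum_comm' fun y x => ?_
          simp only [mem_filter, mem_univ, true_and, and_true]
      _ ≤ ∑ x, if x ∈ S then |v x| else 0 := by
          refine sum_le_sum fun x _ => ?_
          rw [sum_const, nsmul_eq_mul]
          split_ifs with hx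
          · refine mul_le_of_le_one_left (abs_nonneg _) ?_
            have : (S.filter fun y => β.Ed x y).card ≤ 1 := card_le_one.2 fun a ha b hb =>
              β.uniq S hS x a b (mem_filter.1 ha).1 (mem_filter.1 hb).1 (mem_filter.1 ha).2
                (mem_filter.1 hb).2
            exact_mod_cast this
          · have : (S.filter fun y => β.Ed x y) = ∅ := filter_eq_empty_iff.2 fun y hy hE =>
              hx (β.back S hS x y hy hE)
            rw [this]; simp
      _ = ∑ x ∈ S, |v x| := by rw [sum_ite_mem, univ_inter]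

open Classical in
theorem adj_apply (v : β.F) (y : β.V) : β.adj v y = ∑ x ∈ univ.filter fun x => β.Ed x y, v x := rfl

theorem norm_adj (v : β.F) : ‖β.adj v‖ ≤ ‖v‖ := by
  have := (β.adj).le_of_opNorm_le (LinearMap.mkContinuous_norm_le _ zero_le_one _) v
  rwa [one_mul] at this

/-- Indicator vectors. -/
noncomputable def ind (U : Finset β.V) : β.F := fun w => if w ∈ U then 1 else 0

/-- Coordinates of a block vector. -/
def get (w : β.V) : β.F →ₗ[ℝ] ℝ where
  toFun v := v w
  map_add' _ _ := rfl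
  map_smul' _ _ := rfl

theorem get_ind (U : Finset β.V) (w : β.V) : get w (ind U) = if w ∈ U then 1 else 0 := rfl

theorem ext' {v v' : β.F} (h : ∀ w, get w v = get w v') : v = v' := funext h

theorem eq_sum (v : β.F) : v = ∑ w, get w v • ind {w} := by
  refine ext' fun u => ?_
  simp [map_sum, get_ind]

theorem ind_eq_sum (U : Finset β.V) : ind U = ∑ w ∈ U, ind {w} := by
  refine ext' fun u => ?_
  simp [map_sum, get_ind]

end Blk

/-- The `ℓ¹` sum of the blocks. -/
def Sp (β : ℕ → Blk) : Type := lp (fun m => (β m).F) 1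

namespace Sp

variable {β : ℕ → Blk}

noncomputable instance : NormedAddCommGroup (Sp β) :=
  inferInstanceAs (NormedAddCommGroup (lp (fun m => (β m).F) 1))
noncomputable instance : NormedSpace ℝ (Sp β) :=
  inferInstanceAs (NormedSpace ℝ (lp (fun m => (β m).F) 1))
instance : CompleteSpace (Sp β) := inferInstanceAs (CompleteSpace (lp (fun m => (β m).F) 1))

/-- The block components of a vector. -/
def val (x : Sp β) (m : ℕ) : (β m).F := x.1 m

theorem val_inj : Function.Injective (val : Sp β → ∀ m, (β m).F) :=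
  fun _ _ h => Subtype.ext h

theorem mem (x : Sp β) : Memℓp x.val 1 := x.2

/-- Building a vector from its components. -/
def mk (f : ∀ m, (β m).F) (h : Memℓp f 1) : Sp β := ⟨f, h⟩

instance : LE (Sp β) := ⟨fun x y => x.val ≤ y.val⟩
instance : LT (Sp β) := ⟨fun x y => x.val < y.val⟩
noncomputable instance : Max (Sp β) := ⟨fun x y => mk (x.val ⊔ y.val)
  ((x.mem.norm.add y.mem.norm).mono fun _ => norm_sup_le_add _ _)⟩
noncomputable instance : Min (Sp β) := ⟨fun x y => mk (x.val ⊓ y.val)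
  ((x.mem.norm.add y.mem.norm).mono fun _ => norm_inf_le_add _ _)⟩

noncomputable instance : Lattice (Sp β) :=
  val_inj.lattice val Iff.rfl Iff.rfl (fun _ _ => rfl) (fun _ _ => rfl)

theorem le_def {x y : Sp β} : x ≤ y ↔ ∀ m w, x.val m w ≤ y.val m w := Iff.rfl

instance : IsOrderedAddMonoid (Sp β) where
  add_le_add_left _ _ h c := fun m w => add_le_add_left (h m w) (c.val m w)

instance : PosSMulMono ℝ (Sp β) where
  smul_le_smul_of_nonneg_left _ ha _ _ h := fun m w => mul_le_mul_of_nonneg_left (h m w) ha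

theorem norm_mono {x y : Sp β} (h : ∀ m, ‖x.val m‖ ≤ ‖y.val m‖) : ‖x‖ ≤ ‖y‖ :=
  lp.norm_mono (by norm_num) h

instance : HasSolidNorm (Sp β) where
  solid := fun _ _ h => norm_mono fun m => Blk.N_mono fun w => h m w

theorem norm_val_le (x : Sp β) (m : ℕ) : ‖x.val m‖ ≤ ‖x‖ :=
  lp.norm_apply_le_norm (by norm_num) x m

/-- Evaluation at a block. -/
noncomputable def ev (m : ℕ) : Sp β →L[ℝ] (β m).F := lp.evalCLM ℝ (fun m => (β m).F) 1 m

/-- Inclusion of a block. -/
noncomputable def sing (m : ℕ) : (β m).F →L[ℝ] Sp β :=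
  lp.singleContinuousLinearMap ℝ (fun m => (β m).F) 1 m

theorem sing_self (m : ℕ) (v : (β m).F) : (sing m v : Sp β).val m = v :=
  lp.single_apply_self (E := fun m => (β m).F) 1 m v

theorem sing_ne {m m' : ℕ} (h : m' ≠ m) (v : (β m).F) : (sing m v : Sp β).val m' = 0 :=
  lp.single_apply_ne (E := fun m => (β m).F) 1 m v h

theorem norm_sing (m : ℕ) (v : (β m).F) : ‖(sing m v : Sp β)‖ = ‖v‖ :=
  lp.norm_single (E := fun m => (β m).F) (p := 1) (by norm_num) m v

theorem hasSum_sing (x : Sp β) : HasSum (fun m => (sing m (x.val m) : Sp β)) x :=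
  lp.hasSum_single (by norm_num) x

/-- Coordinate functionals. -/
noncomputable def co (i : Σ m, (β m).V) : Sp β →L[ℝ] ℝ :=
  LinearMap.mkContinuous
    { toFun := fun x => x.val i.1 i.2
      map_add' := fun _ _ => rfl
      map_smul' := fun _ _ => rfl } 1 fun x => by
    rw [one_mul]
    exact (Blk.abs_le_N _ _).trans (norm_val_le x i.1)

/-- Unit vectors. -/
noncomputable def e (i : Σ m, (β m).V) : Sp β := sing i.1 (Blk.ind {i.2})

open Classical in
/-- Band projections. -/
noncomputable def P (S : Set (Σ m, (β m).V)) : Sp β →L[ℝ] Sp β :=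
  LinearMap.mkContinuous
    { toFun := fun x => mk (fun m w => if (⟨m, w⟩ : Σ m, (β m).V) ∈ S then x.val m w else 0)
        (x.mem.mono' fun m => Blk.N_mono fun w => by split_ifs <;> simp)
      map_add' := fun x y => val_inj (funext fun m => funext fun w => by
        show (if _ then x.val m w + y.val m w else 0) = (if _ then _ else _) + (if _ then _ else _)
        split_ifs <;> simp)
      map_smul' := fun a x => val_inj (funext fun m => funext fun w => by
        show (if _ then a * x.val m w else 0) = a * (if _ then _ else _)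
        split_ifs <;> simp) } 1 fun x => by
    rw [one_mul]
    refine norm_mono fun m => Blk.N_mono fun w => ?_
    show |if _ then x.val m w else 0| ≤ _
    split_ifs <;> simp

theorem sing_eq (m : ℕ) (v : (β m).F) : (sing m v : Sp β) = ∑ w, Blk.get w v • e ⟨m, w⟩ := by
  conv_lhs => rw [Blk.eq_sum v]
  rw [map_sum]
  simp only [map_smul, e]

/-- The atomic structure. -/
noncomputable def atomic (β : ℕ → Blk) : Atomic (Sp β) (Σ m, (β m).V) where
  co := co
  e := e
  P := P
  nonneg_iff x := ⟨fun h i => h i.1 i.2, fun h m w => h ⟨m, w⟩⟩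
  co_self i := by
    show Blk.get i.2 ((e i).val i.1) = 1
    rw [e, sing_self, Blk.get_ind]; simp
  co_ne := by
    rintro ⟨m, w⟩ ⟨m', w'⟩ h
    show Blk.get w ((sing m' (Blk.ind {w'}) : Sp β).val m) = 0
    by_cases hm : m = m'
    · subst hm
      rw [sing_self, Blk.get_ind, if_neg]
      exact fun e => h (by rw [mem_singleton.1 e])
    · rw [sing_ne hm, map_zero]
  P_in S x i hi := if_pos hi
  P_out S x i hi := if_neg hi
  dense x := by
    refine mem_closure_of_tendsto (hasSum_sing x) (Eventually.of_forall fun s => ?_)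
    refine Submodule.sum_mem _ fun m _ => ?_
    rw [sing_eq]
    refine Submodule.sum_mem _ fun w _ => ?_
    by_cases h : Blk.get w (x.val m) = 0
    · rw [h, zero_smul]; exact Submodule.zero_mem _
    · exact Submodule.smul_mem _ _ (Submodule.subset_span ⟨⟨m, w⟩, h, rfl⟩)

theorem norm_le_tail (y : Sp β) {c : ℝ} (N : ℕ) (h0 : ∀ m < N, y.val m = 0)
    (h : ∀ m, ‖y.val m‖ ≤ c * (1 / 2) ^ m) : ‖y‖ ≤ 2 * c * (1 / 2) ^ N := by
  have h1 : HasSum (fun m : ℕ => if m < N then 0 else c * (1 / 2 : ℝ) ^ m)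
      (2 * c * (1 / 2) ^ N) := by
    rw [← hasSum_nat_add_iff' N]
    have e1 : ∑ i ∈ range N, (if i < N then 0 else c * (1 / 2 : ℝ) ^ i) = 0 :=
      sum_eq_zero fun i hi => if_pos (mem_range.1 hi)
    rw [e1, sub_zero]
    have := hasSum_geometric_two.mul_left (c * (1 / 2) ^ N)
    have e2 : (fun n : ℕ => if n + N < N then 0 else c * (1 / 2 : ℝ) ^ (n + N))
        = fun n : ℕ => c * (1 / 2) ^ N * (1 / 2) ^ n := by
      funext n
      rw [if_neg (by omega), pow_add]; ring
    have e3 : 2 * c * (1 / 2 : ℝ) ^ N = c * (1 / 2) ^ N * 2 := by ring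
    rw [e2, e3]; exact this
  have h2 := lp.hasSum_norm (p := 1) (by norm_num) y
  simp only [ENNReal.toReal_one, Real.rpow_one] at h2
  refine hasSum_le (fun m => ?_) h2 h1
  split_ifs with hm
  · exact (congrArg norm (h0 m hm)).le.trans norm_zero.le
  · exact h m

end Sp

end Pool.Agent.Work.MP_4e33a2_an
end

-- merged part: Pool.Agent.Work.MP_4e33a2_an.Zykov
section
set_option autoImplicit false

namespace Pool.Agent.Work.MP_4e33a2_an

/-- A finite acyclic digraph with unique directed paths and large chromatic number. -/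
theorem zykov (k : ℕ) : ∃ (W : Type) (_ : Fintype W) (E anc : W → W → Prop) (lev : W → ℕ),
    (∀ y, anc y y) ∧
    (∀ x z y, E x z → anc z y → anc x y) ∧
    (∀ x z z' y, E x z → E x z' → anc z y → anc z' y → z = z') ∧
    (∀ x y z, E x y → anc x z → anc z y → z = x ∨ z = y) ∧
    (∀ x y, E x y → lev x < lev y) ∧
    (∀ x y, anc x y → anc y x → x = y) ∧
    (∀ (c : W → ℕ × ℕ) (s : Finset (ℕ × ℕ)), s.card = k → (∀ w, c w ∈ s) →
      ∃ x y, E x y ∧ c x = c y) := by
  induction k with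
  | zero =>
    refine ⟨Unit, inferInstance, fun _ _ => False, fun _ _ => True, fun _ => 0,
      ?_, ?_, ?_, ?_, ?_, ?_, ?_⟩ <;> simp
  | succ k ih =>
    obtain ⟨W, _, E, anc, lev, h1, h2, h3, h4, h5, h6, h7⟩ := ih
    classical
    let W' : Type := (Fin (k + 1) × W) ⊕ (Fin (k + 1) → W)
    let E' : W' → W' → Prop := fun x y =>
      match x, y with
      | Sum.inl (i, u), Sum.inl (j, v) => i = j ∧ E u v
      | Sum.inl (i, u), Sum.inr f => u = f i
      | Sum.inr _, _ => False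
    let anc' : W' → W' → Prop := fun x y =>
      match x, y with
      | Sum.inl (i, u), Sum.inl (j, v) => i = j ∧ anc u v
      | Sum.inl (i, u), Sum.inr f => anc u (f i)
      | Sum.inr _, Sum.inl _ => False
      | Sum.inr f, Sum.inr f' => f = f'
    let lev' : W' → ℕ := fun x =>
      match x with
      | Sum.inl (_, u) => lev u
      | Sum.inr _ => Finset.univ.sup lev + 1
    refine ⟨W', inferInstance, E', anc', lev', ?_, ?_, ?_, ?_, ?_, ?_, ?_⟩
    · rintro (⟨i, u⟩ | f)
      · exact ⟨rfl, h1 u⟩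
      · rfl
    · rintro (⟨i, u⟩ | f) (⟨j, v⟩ | g) (⟨l, w⟩ | g') he ha
      · exact ⟨he.1.trans ha.1, h2 _ _ _ he.2 ha.2⟩
      · obtain ⟨rfl, he⟩ := he
        exact h2 _ _ _ he ha
      · exact ha.elim
      · obtain rfl : g = g' := ha
        obtain rfl : u = g i := he
        exact h1 _
      all_goals exact he.elim
    · rintro (⟨i, u⟩ | f) (⟨j, v⟩ | g) (⟨j', v'⟩ | g') (⟨l, w⟩ | g'') he he' ha ha'
      · obtain ⟨rfl, he⟩ := he
        obtain ⟨rfl, he'⟩ := he'
        rw [h3 _ _ _ _ he he' ha.2 ha'.2]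
      · obtain ⟨rfl, he⟩ := he
        obtain ⟨rfl, he'⟩ := he'
        rw [h3 _ _ _ _ he he' ha ha']
      · exact ha'.elim
      · obtain ⟨rfl, he⟩ := he
        obtain rfl : g' = g'' := ha'
        have hu : u = g' i := he'
        have ha2 : anc v (g' i) := ha
        rw [← hu] at ha2
        have := h6 _ _ (h2 _ _ _ he (h1 v)) ha2
        subst this
        exact absurd (h5 _ _ he) (lt_irrefl _)
      · exact ha.elim
      · obtain ⟨rfl, he'⟩ := he'
        obtain rfl : g = g'' := ha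
        have hu : u = g i := he
        have ha2 : anc v' (g i) := ha'
        rw [← hu] at ha2
        have := h6 _ _ (h2 _ _ _ he' (h1 v')) ha2
        subst this
        exact absurd (h5 _ _ he') (lt_irrefl _)
      · exact ha.elim
      · obtain rfl : g = g'' := ha
        obtain rfl : g' = g := ha'
        rfl
      all_goals exact he.elim
    · rintro (⟨i, u⟩ | f) (⟨j, v⟩ | g) (⟨l, w⟩ | g') he ha ha'
      · obtain ⟨rfl, he⟩ := he
        obtain ⟨rfl, ha⟩ := ha
        rcases h4 _ _ _ he ha ha'.2 with rfl | rfl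
        · exact Or.inl rfl
        · exact Or.inr rfl
      · exact ha'.elim
      · obtain ⟨rfl, ha⟩ := ha
        have hu : u = g i := he
        have ha2 : anc w (g i) := ha'
        rw [← hu] at ha2
        rw [h6 _ _ ha ha2]
        exact Or.inl rfl
      · obtain rfl : g' = g := ha'
        exact Or.inr rfl
      all_goals exact he.elim
    · rintro (⟨i, u⟩ | f) (⟨j, v⟩ | g) he
      · exact h5 _ _ he.2
      · exact Nat.lt_succ_of_le (Finset.le_sup (f := lev) (Finset.mem_univ u))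
      all_goals exact he.elim
    · rintro (⟨i, u⟩ | f) (⟨j, v⟩ | g) ha ha'
      · obtain ⟨rfl, ha⟩ := ha
        rw [h6 _ _ ha ha'.2]
      · exact ha'.elim
      · exact ha.elim
      · obtain rfl : f = g := ha
        rfl
    · intro c s hs hc
      by_contra hne
      have key : ∀ (i : Fin (k + 1)) (γ : ℕ × ℕ), γ ∈ s → ∃ w : W, c (Sum.inl (i, w)) = γ := by
        intro i γ hγ
        by_contra hno
        obtain ⟨x, y, hxy, hcxy⟩ := h7 (fun w => c (Sum.inl (i, w))) (s.erase γ)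
          (by rw [Finset.card_erase_of_mem hγ, hs]; rfl)
          (fun w => Finset.mem_erase.2 ⟨fun h => hno ⟨w, h⟩, hc _⟩)
        exact hne ⟨Sum.inl (i, x), Sum.inl (i, y), ⟨rfl, hxy⟩, hcxy⟩
      let e := s.equivFinOfCardEq hs
      choose f hf using fun i : Fin (k + 1) => key i (e.symm i).1 (e.symm i).2
      let i0 := e ⟨c (Sum.inr f), hc _⟩
      refine hne ⟨Sum.inl (i0, f i0), Sum.inr f, rfl, ?_⟩
      rw [hf i0]
      simp [i0]

end Pool.Agent.Work.MP_4e33a2_an
end

-- merged part: Pool.Agent.Work.MP_4e33a2_an.Random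
section
set_option autoImplicit false

namespace Pool.Agent.Work.MP_4e33a2_an

open Finset

/-- Counting the Boolean functions that avoid a prescribed pattern on each of many disjoint blocks. -/
theorem avoid_card {I κ : Type} [Fintype I] [DecidableEq I] [DecidableEq κ]
    (B : κ → Finset I) (p : κ → I → Bool) (β : ℕ) (J : Finset κ)
    (hβ : ∀ j ∈ J, (B j).card ≤ β)
    (hd : ∀ j ∈ J, ∀ j' ∈ J, j ≠ j' → Disjoint (B j) (B j')) :
    ((univ.filter fun h : I → Bool => ∀ j ∈ J, ∃ u ∈ B j, h u ≠ p j u).card : ℝ)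
      ≤ (1 - 1 / 2 ^ β) ^ J.card * 2 ^ Fintype.card I := by
  classical
  induction J using Finset.induction_on with
  | empty => simp
  | insert j J hj ih =>
    have ih' := ih (fun j' hj' => hβ j' (mem_insert_of_mem hj'))
      (fun a ha b hb hab => hd a (mem_insert_of_mem ha) b (mem_insert_of_mem hb) hab)
    set A := univ.filter fun h : I → Bool => ∀ j ∈ J, ∃ u ∈ B j, h u ≠ p j u with hA
    set Mt := A.filter fun h : I → Bool => ∀ u ∈ B j, h u = p j u with hMt
    have hsplit : (univ.filter fun h : I → Bool => ∀ j' ∈ insert j J, ∃ u ∈ B j', h u ≠ p j' u)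
        = A \ Mt := by
      ext h
      simp only [hA, hMt, mem_filter, mem_univ, true_and, mem_sdiff, forall_mem_insert, not_and,
        not_forall]
      constructor
      · rintro ⟨⟨u, hu, hne⟩, h2⟩
        exact ⟨h2, fun _ => ⟨u, hu, hne⟩⟩
      · rintro ⟨h2, h1⟩
        obtain ⟨u, hu, hne⟩ := h1 h2
        exact ⟨⟨u, hu, hne⟩, h2⟩
    have hsub : Mt ⊆ A := filter_subset _ _
    have hcard : A.card ≤ 2 ^ β * Mt.card := by
      refine card_le_mul_card_image_of_maps_to
        (f := fun h : I → Bool => fun u => if u ∈ B j then p j u else h u) ?_ _ ?_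
      · intro h hh
        simp only [hA, hMt, mem_filter, mem_univ, true_and] at hh ⊢
        refine ⟨fun j' hj' => ?_, fun u hu => by simp [hu]⟩
        obtain ⟨u, hu, hne⟩ := hh j' hj'
        refine ⟨u, hu, ?_⟩
        have hdis := hd j (mem_insert_self _ _) j' (mem_insert_of_mem hj')
          (fun h => hj (h ▸ hj'))
        have : u ∉ B j := fun h => (disjoint_left.1 hdis h) hu
        simpa [this] using hne
      · intro h0 _
        have h1 : (A.filter fun h : I → Bool =>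
            (fun u => if u ∈ B j then p j u else h u) = h0).card
            ≤ (univ : Finset (B j → Bool)).card := by
          refine card_le_card_of_injOn (fun h u => h u.1) (fun _ _ => mem_coe.2 (mem_univ _)) ?_
          intro h hh h' hh' heq
          simp only [coe_filter, Set.mem_ofPred_eq] at hh hh'
          funext u
          by_cases hu : u ∈ B j
          · exact congrFun heq ⟨u, hu⟩
          · have e1 := congrFun hh.2 u
            have e2 := congrFun hh'.2 u
            simp only [hu, if_false] at e1 e2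
            rw [e1, e2]
        refine h1.trans ?_
        simp only [card_univ, Fintype.card_fun, Fintype.card_bool, Fintype.card_coe]
        exact Nat.pow_le_pow_right (by norm_num) (hβ j (mem_insert_self _ _))
    rw [hsplit, card_sdiff_of_subset hsub, Nat.cast_sub (card_le_card hsub),
      card_insert_of_notMem hj, pow_succ]
    have hc : (A.card : ℝ) ≤ 2 ^ β * Mt.card := by exact_mod_cast hcard
    have h2 : (0 : ℝ) < 2 ^ β := by positivity
    have h3 : (A.card : ℝ) / 2 ^ β ≤ Mt.card := by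
      rw [div_le_iff₀ h2]; linarith only [hc]
    have h4 : (0 : ℝ) ≤ 1 - 1 / 2 ^ β := by
      have : (1 : ℝ) / 2 ^ β ≤ 1 := by
        rw [div_le_one h2]; exact one_le_pow₀ (by norm_num)
      linarith only [this]
    calc (A.card : ℝ) - Mt.card ≤ (1 - 1 / 2 ^ β) * A.card := by
          have : (1 - 1 / 2 ^ β) * (A.card : ℝ) = A.card - A.card / 2 ^ β := by ring
          linarith only [h3, this]
      _ ≤ (1 - 1 / 2 ^ β) * ((1 - 1 / 2 ^ β) ^ J.card * 2 ^ Fintype.card I) :=
          mul_le_mul_of_nonneg_left ih' h4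
      _ = _ := by ring

/-- Union bound: a random digraph realises every pattern between any two large disjoint families. -/
theorem exists_generic {V Cf : Type} [Fintype V] [DecidableEq V] [Fintype Cf] [DecidableEq Cf]
    (T : Cf → Finset V) (G t : ℕ) (hT : ∀ c, (T c).card ≤ G)
    (p : Cf → Cf → V × V → Bool)
    (hlt : ((Fintype.card Cf : ℝ)) ^ (2 * t) * (1 - 1 / 2 ^ (2 * G ^ 2)) ^ (t * t) < 1) :
    ∃ h : V × V → Bool, ∀ L R : Finset Cf, L.card = t → R.card = t →
      (∀ c ∈ L ∪ R, ∀ c' ∈ L ∪ R, c ≠ c' → Disjoint (T c) (T c')) → Disjoint L R →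
      ∃ c ∈ L, ∃ c' ∈ R, ∀ u ∈ (T c ×ˢ T c') ∪ (T c' ×ˢ T c), h u = p c c' u := by
  classical
  by_contra hno
  push Not at hno
  let P : Finset (Finset Cf × Finset Cf) :=
    ((powersetCard t univ) ×ˢ (powersetCard t univ)).filter fun LR =>
      (∀ c ∈ LR.1 ∪ LR.2, ∀ c' ∈ LR.1 ∪ LR.2, c ≠ c' → Disjoint (T c) (T c')) ∧ Disjoint LR.1 LR.2
  let B : Cf × Cf → Finset (V × V) := fun cc => (T cc.1 ×ˢ T cc.2) ∪ (T cc.2 ×ˢ T cc.1)
  let bad : Finset Cf × Finset Cf → Finset (V × V → Bool) := fun LR =>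
    univ.filter fun h => ∀ j ∈ LR.1 ×ˢ LR.2, ∃ u ∈ B j, h u ≠ p j.1 j.2 u
  have hcover : (univ : Finset (V × V → Bool)) ⊆ P.biUnion bad := by
    intro h _
    obtain ⟨L, R, hL, hR, hd, hLR, hb⟩ := hno h
    refine mem_biUnion.2 ⟨(L, R), ?_, ?_⟩
    · simp only [P, mem_filter, mem_product, mem_powersetCard, subset_univ, true_and]
      exact ⟨⟨hL, hR⟩, hd, hLR⟩
    · simp only [bad, mem_filter, mem_univ, true_and, mem_product]
      rintro ⟨c, c'⟩ ⟨hc, hc'⟩
      exact hb c hc c' hc'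
  set q : ℝ := 1 - 1 / 2 ^ (2 * G ^ 2) with hq
  have hq0 : 0 ≤ q := by
    have h2 : (0 : ℝ) < 2 ^ (2 * G ^ 2) := by positivity
    have : (1 : ℝ) / 2 ^ (2 * G ^ 2) ≤ 1 := by
      rw [div_le_one h2]; exact one_le_pow₀ (by norm_num)
    linarith only [this]
  have hbad : ∀ LR ∈ P, ((bad LR).card : ℝ) ≤ q ^ (t * t) * 2 ^ Fintype.card (V × V) := by
    rintro ⟨L, R⟩ hLR
    simp only [P, mem_filter, mem_product, mem_powersetCard, subset_univ, true_and] at hLR
    obtain ⟨⟨hL, hR⟩, hd, hLR⟩ := hLR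
    have := avoid_card B (fun j => p j.1 j.2) (2 * G ^ 2) (L ×ˢ R) ?_ ?_
    · rw [card_product, hL, hR] at this
      convert this using 3
      all_goals (first | rfl | (ext h; simp [bad]))
    · rintro ⟨c, c'⟩ _
      refine (card_union_le _ _).trans ?_
      rw [card_product, card_product]
      have h1 := hT c
      have h2 := hT c'
      have h3 : (T c).card * (T c').card ≤ G * G := Nat.mul_le_mul h1 h2
      have h4 : (T c').card * (T c).card ≤ G * G := Nat.mul_le_mul h2 h1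
      linarith only [h3]
    · rintro ⟨c, c'⟩ hc ⟨d, d'⟩ hd' hne
      rw [mem_product] at hc hd'
      have hcL : c ∈ L ∪ R := mem_union_left _ hc.1
      have hcR : c' ∈ L ∪ R := mem_union_right _ hc.2
      have hdL : d ∈ L ∪ R := mem_union_left _ hd'.1
      have hdR : d' ∈ L ∪ R := mem_union_right _ hd'.2
      have same : ∀ a ∈ L ∪ R, ∀ b ∈ L ∪ R, ∀ v, v ∈ T a → v ∈ T b → a = b := by
        intro a ha b hb v hva hvb
        by_contra hab
        exact disjoint_left.1 (hd a ha b hb hab) hva hvb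
      have cross : ∀ a ∈ L, ∀ b ∈ R, a ≠ b := fun a ha b hb hab =>
        disjoint_left.1 hLR ha (hab ▸ hb)
      rw [disjoint_left]
      rintro ⟨u, v⟩ h1 h2
      simp only [B, mem_union, mem_product] at h1 h2
      rcases h1 with ⟨a1, a2⟩ | ⟨a1, a2⟩ <;> rcases h2 with ⟨b1, b2⟩ | ⟨b1, b2⟩
      · exact hne (Prod.ext (same c hcL d hdL u a1 b1) (same c' hcR d' hdR v a2 b2))
      · exact cross c hc.1 d' hd'.2 (same c hcL d' hdR u a1 b1)
      · exact cross d hd'.1 c' hc.2 (same d hdL c' hcR u b1 a1)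
      · exact hne (Prod.ext (same c hcL d hdL v a2 b2) (same c' hcR d' hdR u a1 b1))
  have hP : (P.card : ℝ) ≤ (Fintype.card Cf : ℝ) ^ (2 * t) := by
    have h1 : P.card ≤ Fintype.card Cf ^ (2 * t) := by
      refine (card_filter_le _ _).trans ?_
      rw [card_product, card_powersetCard, card_univ, two_mul, pow_add]
      exact Nat.mul_le_mul (Nat.choose_le_pow _ _) (Nat.choose_le_pow _ _)
    exact_mod_cast h1
  have h1 : ((univ : Finset (V × V → Bool)).card : ℝ) ≤ ∑ LR ∈ P, ((bad LR).card : ℝ) := by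
    have := (card_le_card hcover).trans card_biUnion_le
    exact_mod_cast this
  have h2 : ∑ LR ∈ P, ((bad LR).card : ℝ) ≤ P.card * (q ^ (t * t) * 2 ^ Fintype.card (V × V)) := by
    have := sum_le_card_nsmul P (fun LR => ((bad LR).card : ℝ)) _ hbad
    simpa [nsmul_eq_mul] using this
  have h3 : ((univ : Finset (V × V → Bool)).card : ℝ) = 2 ^ Fintype.card (V × V) := by
    rw [card_univ, Fintype.card_fun, Fintype.card_bool]; push_cast; rfl
  have h4 : (0 : ℝ) < 2 ^ Fintype.card (V × V) := by positivity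
  have h5 : (P.card : ℝ) * (q ^ (t * t) * 2 ^ Fintype.card (V × V))
      ≤ (Fintype.card Cf : ℝ) ^ (2 * t) * (q ^ (t * t) * 2 ^ Fintype.card (V × V)) :=
    mul_le_mul_of_nonneg_right hP (by positivity)
  have h6 : (Fintype.card Cf : ℝ) ^ (2 * t) * (q ^ (t * t) * 2 ^ Fintype.card (V × V))
      < 2 ^ Fintype.card (V × V) := by
    rw [← mul_assoc]
    exact mul_lt_of_lt_one_left h4 hlt
  linarith only [h1, h2, h3, h5, h6]

/-- Greedy construction of a clique from a bipartite Ramsey property. -/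
theorem greedy_clique {α : Type} [DecidableEq α] (G : α → α → Prop)
    (hs : ∀ a b, G a b → G b a) (t : ℕ) (ht : 0 < t) (k : ℕ) :
    ∀ X : Finset α, (∀ L R : Finset α, L ⊆ X → R ⊆ X → Disjoint L R → L.card = t → R.card = t →
      ∃ c ∈ L, ∃ c' ∈ R, G c c') → (3 * t) ^ k ≤ X.card →
      ∃ F ⊆ X, F.card = k ∧ ∀ c ∈ F, ∀ c' ∈ F, c ≠ c' → G c c' := by
  classical
  induction k with
  | zero => intro X _ _; exact ⟨∅, empty_subset _, rfl, by simp⟩
  | succ k ih =>
    intro X hX hc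
    have h1 : 1 ≤ (3 * t) ^ k := Nat.one_le_pow _ _ (by omega)
    have h2 : (3 * t) ^ (k + 1) = 3 * (t * (3 * t) ^ k) := by ring
    have h3 : t ≤ t * (3 * t) ^ k := Nat.le_mul_of_pos_right _ h1
    obtain ⟨L, hLX, hL⟩ := exists_subset_card_eq (s := X) (n := t) (by omega)
    let N : α → Finset α := fun l => (X \ L).filter (G l)
    let R0 : Finset α := (X \ L).filter fun c => ∀ l ∈ L, ¬ G l c
    have hR0 : R0.card < t := by
      by_contra hge
      obtain ⟨R, hR, hRc⟩ := exists_subset_card_eq (s := R0) (n := t) (not_lt.1 hge)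
      have hRX : R ⊆ X := fun c hc => (mem_sdiff.1 (mem_filter.1 (hR hc)).1).1
      have hLR : Disjoint L R := disjoint_left.2 fun c hcL hcR =>
        (mem_sdiff.1 (mem_filter.1 (hR hcR)).1).2 hcL
      obtain ⟨c, hcL, c', hc', hG⟩ := hX L R hLX hRX hLR hL hRc
      exact (mem_filter.1 (hR hc')).2 c hcL hG
    have hcov : X ⊆ L ∪ R0 ∪ L.biUnion N := by
      intro c hcX
      by_cases hcL : c ∈ L
      · exact mem_union_left _ (mem_union_left _ hcL)
      by_cases hn : ∀ l ∈ L, ¬ G l c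
      · exact mem_union_left _ (mem_union_right _ (mem_filter.2 ⟨mem_sdiff.2 ⟨hcX, hcL⟩, hn⟩))
      · push Not at hn
        obtain ⟨l, hl, hG⟩ := hn
        exact mem_union_right _ (mem_biUnion.2 ⟨l, hl, mem_filter.2 ⟨mem_sdiff.2 ⟨hcX, hcL⟩, hG⟩⟩)
    have hex : ∃ l ∈ L, (3 * t) ^ k ≤ (N l).card := by
      by_contra hno
      push Not at hno
      have h4 : (L.biUnion N).card ≤ L.card * (3 * t) ^ k :=
        card_biUnion_le_card_mul _ _ _ fun l hl => (hno l hl).le
      have h5 := card_le_card hcov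
      have h6 := card_union_le (L ∪ R0) (L.biUnion N)
      have h7 := card_union_le L R0
      rw [hL] at h4 h7
      omega
    obtain ⟨l, hl, hN⟩ := hex
    have hNX : N l ⊆ X := fun c hc => (mem_sdiff.1 (mem_filter.1 hc).1).1
    obtain ⟨F, hF, hFc, hFG⟩ := ih (N l)
      (fun L' R' h1 h2 h3 h4 h5 => hX L' R' (h1.trans hNX) (h2.trans hNX) h3 h4 h5) hN
    have hlF : l ∉ F := fun h => (mem_sdiff.1 (mem_filter.1 (hF h)).1).2 hl
    refine ⟨insert l F, insert_subset (hLX hl) (hF.trans hNX), by rw [card_insert_of_notMem hlF, hFc], ?_⟩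
    intro c hc c' hc' hne
    rcases mem_insert.1 hc with e1 | hc1 <;> rcases mem_insert.1 hc' with e2 | hc2
    · exact absurd (e1.trans e2.symm) hne
    · rw [e1]; exact (mem_filter.1 (hF hc2)).2
    · rw [e2]; exact hs _ _ (mem_filter.1 (hF hc1)).2
    · exact hFG c hc1 c' hc2 hne

/-- A large conflict-free subset when every element has few conflicts. -/
theorem indep_subset {α : Type} [DecidableEq α] (Y : Finset α) (conf : α → α → Prop)
    [DecidableRel conf] (hs : ∀ a b, conf a b → conf b a) (D : ℕ)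
    (hD : ∀ y ∈ Y, (Y.filter (conf y)).card ≤ D) :
    ∃ Y' ⊆ Y, (∀ a ∈ Y', ∀ b ∈ Y', a ≠ b → ¬ conf a b) ∧ Y.card ≤ Y'.card * (D + 1) := by
  classical
  obtain ⟨P, hPdef⟩ : ∃ P : Finset (Finset α), ∀ Z, Z ∈ P ↔
      Z ⊆ Y ∧ ∀ a ∈ Z, ∀ b ∈ Z, a ≠ b → ¬ conf a b :=
    ⟨Y.powerset.filter fun Z => ∀ a ∈ Z, ∀ b ∈ Z, a ≠ b → ¬ conf a b, fun Z => by
      simp only [mem_filter, mem_powerset]⟩
  have hP : P.Nonempty := ⟨∅, by simp [hPdef]⟩
  obtain ⟨Z, hZ, hmax⟩ := exists_max_image P Finset.card hP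
  obtain ⟨hZY, hZc⟩ := (hPdef Z).1 hZ
  refine ⟨Z, hZY, hZc, ?_⟩
  have hcov : Y ⊆ Z.biUnion fun z => insert z (Y.filter (conf z)) := by
    intro y hy
    by_contra hno
    simp only [mem_biUnion, mem_insert, mem_filter, not_exists, not_and, not_or] at hno
    have hyZ : y ∉ Z := fun h => (hno y h).1 rfl
    have : insert y Z ∈ P := by
      refine (hPdef _).2 ⟨insert_subset hy hZY, ?_⟩
      intro a ha b hb hab
      rcases mem_insert.1 ha with e1 | ha1 <;> rcases mem_insert.1 hb with e2 | hb1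
      · exact absurd (e1.trans e2.symm) hab
      · rw [e1]; exact fun h => (hno b hb1).2 hy (hs _ _ h)
      · rw [e2]; exact (hno a ha1).2 hy
      · exact hZc a ha1 b hb1 hab
    have := hmax _ this
    rw [card_insert_of_notMem hyZ] at this
    omega
  refine (card_le_card hcov).trans (card_biUnion_le_card_mul _ _ _ fun z hz => ?_)
  exact (card_insert_le _ _).trans (Nat.succ_le_succ (hD z (hZY hz)))

end Pool.Agent.Work.MP_4e33a2_an
end

-- merged part: Pool.Agent.Work.MP_4e33a2_an.Finite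
section
set_option autoImplicit false
set_option linter.unusedSectionVars false

namespace Pool.Agent.Work.MP_4e33a2_an

open Finset Filter Topology

/-- The matrix `a` is bounded by `M` when tested on indicator vectors, for the norm given by `Φ`. -/
def Bdd {V : Type} [DecidableEq V] (Φ : Finset (Finset V)) (M : ℝ) (a : V → V → ℝ) : Prop :=
  ∀ (U : Finset V) (c : ℕ), (∀ S ∈ Φ, (S ∩ U).card ≤ c) →
    ∀ S ∈ Φ, ∑ y ∈ S, ∑ z ∈ U, a y z ≤ M * c

section
variable {W : Type} [Fintype W] [DecidableEq W] (anc : W → W → Prop) [DecidableRel anc] {n : ℕ}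

/-- The in-tree of a vertex inside its copy. -/
def tree (y : W × Fin n) : Finset (W × Fin n) :=
  univ.filter fun u => u.2 = y.2 ∧ anc u.1 y.1

theorem mem_tree {u y : W × Fin n} : u ∈ tree anc y ↔ u.2 = y.2 ∧ anc u.1 y.1 := by
  simp [tree]

theorem card_tree (y : W × Fin n) : (tree anc y).card ≤ Fintype.card W := by
  rw [← card_univ]
  refine card_le_card_of_injOn Prod.fst (fun _ _ => mem_coe.2 (mem_univ _)) ?_
  intro u hu u' hu' he
  rw [mem_coe, mem_tree] at hu hu'
  exact Prod.ext he (hu.1.trans hu'.1.symm)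

/-- Admissible sets of roots. -/
def Adm (K : ℕ) (h : (W × Fin n) × (W × Fin n) → Bool) (F : Finset (W × Fin n)) : Prop :=
  F.card ≤ K ∧ ∀ y ∈ F, ∀ y' ∈ F, y ≠ y' →
    y.2 ≠ y'.2 ∧ ∀ u ∈ tree anc y, ∀ u' ∈ tree anc y', h (u, u') = false

open Classical in
/-- The norming family. -/
noncomputable def fam (K : ℕ) (h : (W × Fin n) × (W × Fin n) → Bool) :
    Finset (Finset (W × Fin n)) :=
  (univ.filter (Adm anc K h)).image fun F => F.biUnion (tree anc)

theorem mem_fam {K : ℕ} {h : (W × Fin n) × (W × Fin n) → Bool} {S : Finset (W × Fin n)} :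
    S ∈ fam anc K h ↔ ∃ F, Adm anc K h F ∧ F.biUnion (tree anc) = S := by
  simp [fam]

/-- The vertices attached to a configuration. -/
def cfg (c : (W × Fin n) × Option (W × Fin n)) : Finset (W × Fin n) :=
  tree anc c.1 ∪ c.2.toFinset

/-- The clique extraction property. -/
def Cl (K s : ℕ) (h : (W × Fin n) × (W × Fin n) → Bool) : Prop :=
  ∀ X : Finset ((W × Fin n) × Option (W × Fin n)),
    (∀ c ∈ X, ∀ z ∈ c.2, z ∉ tree anc c.1) →
    (∀ c ∈ X, ∀ c' ∈ X, c ≠ c' → Disjoint (cfg anc c) (cfg anc c')) → s ≤ X.card →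
    ∃ F ⊆ X, F.card = K ∧ ∀ c ∈ F, ∀ c' ∈ F, c ≠ c' →
      (∀ u ∈ tree anc c.1, ∀ u' ∈ tree anc c'.1, h (u, u') = false) ∧
      (∀ z ∈ c.2, ∀ z' ∈ c'.2, h (z, z') = true ∨ h (z', z) = true)

theorem exists_Cl (K t : ℕ) (ht : 0 < t)
    (hlt : ((Fintype.card ((W × Fin n) × Option (W × Fin n)) : ℝ)) ^ (2 * t) *
      (1 - 1 / 2 ^ (2 * (Fintype.card W + 1) ^ 2)) ^ (t * t) < 1) :
    ∃ h : (W × Fin n) × (W × Fin n) → Bool, Cl anc K ((3 * t) ^ K) h := by
  obtain ⟨h, hh⟩ := exists_generic (cfg anc) (Fintype.card W + 1) t (fun c => by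
      refine (card_union_le _ _).trans (Nat.add_le_add (card_tree anc _) ?_)
      rcases c.2 with _ | z <;> simp)
    (fun c c' u => decide (u.1 ∈ c.2 ∧ u.2 ∈ c'.2)) hlt
  refine ⟨h, fun X hv hd hs => ?_⟩
  let G : (W × Fin n) × Option (W × Fin n) → (W × Fin n) × Option (W × Fin n) → Prop :=
    fun c c' => (∀ u ∈ tree anc c.1, ∀ u' ∈ tree anc c'.1, h (u, u') = false ∧ h (u', u) = false) ∧
      (∀ z ∈ c.2, ∀ z' ∈ c'.2, h (z, z') = true ∨ h (z', z) = true)
  suffices hmain : ∀ L R : Finset ((W × Fin n) × Option (W × Fin n)), L ⊆ X → R ⊆ X →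
      Disjoint L R → L.card = t → R.card = t → ∃ c ∈ L, ∃ c' ∈ R, G c c' by
    obtain ⟨F, hF, hFc, hFG⟩ := greedy_clique G
      (fun a b hab => ⟨fun u hu u' hu' => (hab.1 u' hu' u hu).symm,
        fun z hz z' hz' => (hab.2 z' hz' z hz).symm⟩) t ht K X hmain hs
    exact ⟨F, hF, hFc, fun c hc c' hc' hne =>
      ⟨fun u hu u' hu' => ((hFG c hc c' hc' hne).1 u hu u' hu').1, (hFG c hc c' hc' hne).2⟩⟩
  · intro L R hL hR hLR hLc hRc
    have hU : L ∪ R ⊆ X := union_subset hL hR
    obtain ⟨c, hc, c', hc', hp⟩ := hh L R hLc hRc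
      (fun c hc c' hc' hne => hd c (hU hc) c' (hU hc') hne) hLR
    have hne : c ≠ c' := fun e => disjoint_left.1 hLR hc (e ▸ hc')
    have hdis := hd c (hL hc) c' (hR hc') hne
    refine ⟨c, hc, c', hc', fun u hu u' hu' => ⟨?_, ?_⟩, fun z hz z' hz' => Or.inl ?_⟩
    · rw [hp (u, u') (mem_union_left _ (mem_product.2
        ⟨mem_union_left _ hu, mem_union_left _ hu'⟩))]
      simp only [decide_eq_false_iff_not, not_and]
      exact fun h1 => absurd hu (hv c (hL hc) u h1)
    · rw [hp (u', u) (mem_union_right _ (mem_product.2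
        ⟨mem_union_left _ hu', mem_union_left _ hu⟩))]
      simp only [decide_eq_false_iff_not, not_and]
      intro h1
      exact absurd (mem_union_left _ hu' : u' ∈ cfg anc c')
        (disjoint_left.1 hdis (mem_union_right _ (Option.mem_toFinset.2 h1)))
    · rw [hp (z, z') (mem_union_left _ (mem_product.2
        ⟨mem_union_right _ (Option.mem_toFinset.2 hz),
          mem_union_right _ (Option.mem_toFinset.2 hz')⟩))]
      simp only [decide_eq_true_eq]
      exact ⟨hz, hz'⟩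

variable {anc} {K s : ℕ} {h : (W × Fin n) × (W × Fin n) → Bool}

theorem tree_disj {y y' : W × Fin n} (hne : y.2 ≠ y'.2) :
    Disjoint (tree anc y) (tree anc y') := by
  rw [disjoint_left]
  intro u hu hu'
  rw [mem_tree] at hu hu'
  exact hne (hu.1.symm.trans hu'.1)

theorem adm_of_distinct (hCl : Cl anc K s h) (Y : Finset (W × Fin n))
    (hY : Set.InjOn Prod.snd (Y : Set (W × Fin n))) (hs : s ≤ Y.card) :
    ∃ F ⊆ Y, F.card = K ∧ Adm anc K h F := by
  have hinj : Function.Injective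
      (fun y : W × Fin n => ((y, none) : (W × Fin n) × Option (W × Fin n))) :=
    fun a b hab => congrArg Prod.fst hab
  obtain ⟨F, hF, hFc, hG⟩ := hCl (Y.image fun y => (y, none)) (by
      intro c hc z hz
      obtain ⟨y, _, rfl⟩ := mem_image.1 hc
      simp at hz) (by
      intro c hc c' hc' hne
      obtain ⟨y, hy, rfl⟩ := mem_image.1 hc
      obtain ⟨y', hy', rfl⟩ := mem_image.1 hc'
      have : y.2 ≠ y'.2 := fun e => hne (by rw [hY hy hy' e])
      simpa [cfg] using tree_disj this) (by rwa [card_image_of_injective _ hinj])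
  obtain ⟨F', hF', rfl⟩ := subset_image_iff.1 hF
  rw [card_image_of_injective _ hinj] at hFc
  refine ⟨F', hF', hFc, hFc.le, fun y hy y' hy' hne => ⟨fun e => hne (hY (hF' hy) (hF' hy') e), ?_⟩⟩
  exact (hG _ (mem_image_of_mem _ hy) _ (mem_image_of_mem _ hy') (fun e => hne (hinj e))).1

theorem card_fam {S : Finset (W × Fin n)} (hS : S ∈ fam anc K h) :
    S.card ≤ K * Fintype.card W := by
  obtain ⟨F, hF, rfl⟩ := (mem_fam anc).1 hS
  exact (card_biUnion_le_card_mul _ _ _ fun y _ => card_tree anc y).trans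
    (Nat.mul_le_mul_right _ hF.1)

theorem sum_adm_le (h1 : ∀ y, anc y y) {F : Finset (W × Fin n)} (f : W × Fin n → ℝ)
    (hf : ∀ y, 0 ≤ f y) : ∑ y ∈ F, f y ≤ ∑ y ∈ F.biUnion (tree anc), f y := by
  refine sum_le_sum_of_subset_of_nonneg (fun y hy => mem_biUnion.2 ⟨y, hy, ?_⟩) fun y _ _ => hf y
  exact (mem_tree anc).2 ⟨rfl, h1 _⟩

theorem adm_single (hK : 0 < K) (y : W × Fin n) : Adm anc K h {y} :=
  ⟨by rw [card_singleton]; exact hK, fun a ha b hb hne => absurd ((mem_singleton.1 ha).trans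
    (mem_singleton.1 hb).symm) hne⟩

variable {M : ℝ} {a : W × Fin n → W × Fin n → ℝ}

theorem adm_test (h1 : ∀ y, anc y y) (ha : ∀ y x, 0 ≤ a y x) (hB : Bdd (fam anc K h) M a)
    {F : Finset (W × Fin n)} (hF : Adm anc K h F) (U : Finset (W × Fin n)) (c : ℕ)
    (hU : ∀ S ∈ fam anc K h, (S ∩ U).card ≤ c) : ∑ y ∈ F, ∑ z ∈ U, a y z ≤ M * c :=
  (sum_adm_le h1 (fun y => ∑ z ∈ U, a y z) fun y => sum_nonneg fun z _ => ha y z).trans
    (hB U c hU _ ((mem_fam anc).2 ⟨F, hF, rfl⟩))

theorem col_test (h1 : ∀ y, anc y y) (ha : ∀ y x, 0 ≤ a y x) (hB : Bdd (fam anc K h) M a)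
    {F : Finset (W × Fin n)} (hF : Adm anc K h F) (z : W × Fin n) : ∑ y ∈ F, a y z ≤ M := by
  have := adm_test h1 ha hB hF {z} 1
    (fun S _ => (card_le_card inter_subset_right).trans (by simp))
  simpa using this

theorem row_test (h1 : ∀ y, anc y y) (ha : ∀ y x, 0 ≤ a y x) (hB : Bdd (fam anc K h) M a)
    {F : Finset (W × Fin n)} (hF : Adm anc K h F) :
    ∑ y ∈ F, ∑ z, a y z ≤ M * (K * Fintype.card W) := by
  have := adm_test h1 ha hB hF univ (K * Fintype.card W)
    (fun S hS => by rw [inter_univ]; exact card_fam hS)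
  simpa using this

theorem entry_le (hK : 0 < K) (h1 : ∀ y, anc y y) (ha : ∀ y x, 0 ≤ a y x)
    (hB : Bdd (fam anc K h) M a) (y z : W × Fin n) : a y z ≤ M := by
  simpa using col_test h1 ha hB (adm_single hK y) z

theorem heavy_rows (hCl : Cl anc K s h) (hK : 0 < K) (h1 : ∀ y, anc y y) (ha : ∀ y x, 0 ≤ a y x)
    (hB : Bdd (fam anc K h) M a) (Y : Finset (W × Fin n))
    (hY : Set.InjOn Prod.snd (Y : Set (W × Fin n)))
    (hh : ∀ y ∈ Y, M * Fintype.card W < ∑ z, a y z) : Y.card < s := by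
  by_contra hs
  obtain ⟨F, hF, hFc, hA⟩ := adm_of_distinct hCl Y hY (not_lt.1 hs)
  have h2 := row_test h1 ha hB hA
  have h3 : ∑ y ∈ F, M * Fintype.card W < ∑ y ∈ F, ∑ z, a y z :=
    sum_lt_sum_of_nonempty (card_pos.1 (by omega)) fun y hy => hh y (hF hy)
  rw [sum_const, hFc, nsmul_eq_mul] at h3
  linarith only [h2, h3]

theorem fiber_small (hCl : Cl anc K s h) (h1 : ∀ y, anc y y) (ha : ∀ y x, 0 ≤ a y x)
    (hB : Bdd (fam anc K h) M a) {θ : ℝ} (hθ : M < K * θ) (Y : Finset (W × Fin n))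
    (hY : Set.InjOn Prod.snd (Y : Set (W × Fin n))) (z : W × Fin n)
    (hh : ∀ y ∈ Y, θ ≤ a y z) : Y.card < s := by
  by_contra hs
  obtain ⟨F, hF, hFc, hA⟩ := adm_of_distinct hCl Y hY (not_lt.1 hs)
  have h2 := col_test h1 ha hB hA z
  have h3 : ∑ y ∈ F, θ ≤ ∑ y ∈ F, a y z := sum_le_sum fun y hy => hh y (hF hy)
  rw [sum_const, hFc, nsmul_eq_mul] at h3
  linarith only [hθ, h2, h3]

theorem big_entries (hCl : Cl anc K s h) (h1 : ∀ y, anc y y) (ha : ∀ y x, 0 ≤ a y x)
    (hB : Bdd (fam anc K h) M a) {θ : ℝ} (hθ : M < K * θ) (hθ' : M * Fintype.card W < K * θ)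
    (Y : Finset (W × Fin n)) (hY : Set.InjOn Prod.snd (Y : Set (W × Fin n)))
    (hh : ∀ y ∈ Y, ∃ z, z ∉ tree anc y ∧ θ ≤ a y z) :
    Y.card < s * (s + 1 + Fintype.card W * s + 1) := by
  classical
  choose! σ hσ using hh
  have hfib : ∀ z, (Y.filter fun y => σ y = z).card ≤ s := fun z =>
    (fiber_small hCl h1 ha hB hθ _ (hY.mono (by intro y hy; exact (mem_filter.1 hy).1)) z
      (fun y hy => by
        obtain ⟨hy1, hy2⟩ := mem_filter.1 hy
        rw [← hy2]; exact (hσ y hy1).2)).le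
  let c : W × Fin n → (W × Fin n) × Option (W × Fin n) := fun y => (y, some (σ y))
  have hc : Function.Injective c := fun a b hab => congrArg Prod.fst hab
  obtain ⟨Y', hY', hfree, hcard⟩ := indep_subset Y
    (fun y y' => y ≠ y' ∧ ¬ Disjoint (cfg anc (c y)) (cfg anc (c y')))
    (fun a b hab => ⟨hab.1.symm, fun hd => hab.2 hd.symm⟩) (s + 1 + Fintype.card W * s) (by
      intro y hy
      have hsub : Y.filter (fun y' => y ≠ y' ∧ ¬ Disjoint (cfg anc (c y)) (cfg anc (c y'))) ⊆
          (Y.filter fun y' => σ y' = σ y) ∪ (Y.filter fun y' => y'.2 = (σ y).2) ∪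
          (tree anc y).biUnion fun u => Y.filter fun y' => σ y' = u := by
        intro y' hy'
        obtain ⟨hy'Y, hne, hnd⟩ := mem_filter.1 hy'
        obtain ⟨u, hu, hu'⟩ := not_disjoint_iff.1 hnd
        simp only [cfg, c, mem_union, Option.toFinset_some, mem_singleton] at hu hu'
        rcases hu with hu | hu <;> rcases hu' with hu' | hu'
        · exact absurd hu' (disjoint_left.1 (tree_disj fun e => hne (hY hy hy'Y e)) hu)
        · exact mem_union_right _ (mem_biUnion.2 ⟨u, hu, mem_filter.2 ⟨hy'Y, hu'.symm⟩⟩)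
        · refine mem_union_left _ (mem_union_right _ (mem_filter.2 ⟨hy'Y, ?_⟩))
          rw [← hu]; exact ((mem_tree anc).1 hu').1.symm
        · exact mem_union_left _ (mem_union_left _ (mem_filter.2 ⟨hy'Y, hu'.symm.trans hu⟩))
      refine (card_le_card hsub).trans ((card_union_le _ _).trans (Nat.add_le_add
        ((card_union_le _ _).trans (Nat.add_le_add (hfib _) ?_)) ?_))
      · refine card_le_one.2 fun a ha b hb => ?_
        obtain ⟨ha1, ha2⟩ := mem_filter.1 ha
        obtain ⟨hb1, hb2⟩ := mem_filter.1 hb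
        exact hY ha1 hb1 (ha2.trans hb2.symm)
      · exact (card_biUnion_le_card_mul _ _ _ fun u _ => hfib u).trans
          (Nat.mul_le_mul_right _ (card_tree anc y)))
  by_contra hge
  have hs : s ≤ Y'.card := by
    by_contra hlt
    have := Nat.mul_lt_mul_of_pos_right (k := s + 1 + Fintype.card W * s + 1) (not_le.1 hlt)
      (Nat.succ_pos _)
    omega
  obtain ⟨F, hF, hFc, hG⟩ := hCl (Y'.image c) (by
      intro d hd z hz
      obtain ⟨y, hy, rfl⟩ := mem_image.1 hd
      simp only [c, Option.mem_def, Option.some.injEq] at hz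
      rw [← hz]; exact (hσ y (hY' hy)).1) (by
      intro d hd d' hd' hne
      obtain ⟨y, hy, rfl⟩ := mem_image.1 hd
      obtain ⟨y', hy', rfl⟩ := mem_image.1 hd'
      have hne' : y ≠ y' := fun e => hne (by rw [e])
      by_contra hnd
      exact hfree y hy y' hy' hne' ⟨hne', hnd⟩) (by rwa [card_image_of_injective _ hc])
  obtain ⟨F', hF', rfl⟩ := subset_image_iff.1 hF
  rw [card_image_of_injective _ hc] at hFc
  have hG' := fun y hy y' hy' (hne : y ≠ y') =>
    hG _ (mem_image_of_mem c hy) _ (mem_image_of_mem c hy') (fun e => hne (hc e))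
  have hA : Adm anc K h F' := ⟨hFc.le, fun y hy y' hy' hne =>
    ⟨fun e => hne (hY (hY' (hF' hy)) (hY' (hF' hy')) e), (hG' y hy y' hy' hne).1⟩⟩
  have hU : ∀ S ∈ fam anc K h, (S ∩ F'.image σ).card ≤ Fintype.card W := by
    intro S hS
    obtain ⟨F0, hF0, rfl⟩ := (mem_fam anc).1 hS
    rcases (F0.biUnion (tree anc) ∩ F'.image σ).eq_empty_or_nonempty with he | ⟨u, hu⟩
    · rw [he]; simp
    obtain ⟨hu1, hu2⟩ := mem_inter.1 hu
    obtain ⟨y0, hy0, huy0⟩ := mem_biUnion.1 hu1
    refine le_trans (card_le_card fun u' hu' => ?_) (card_tree anc y0)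
    obtain ⟨hu1', hu2'⟩ := mem_inter.1 hu'
    obtain ⟨y1, hy1, huy1⟩ := mem_biUnion.1 hu1'
    by_cases e : y0 = y1
    · rw [e]; exact huy1
    exfalso
    obtain ⟨hne2, hf⟩ := hF0.2 y0 hy0 y1 hy1 e
    obtain ⟨_, hf'⟩ := hF0.2 y1 hy1 y0 hy0 (Ne.symm e)
    obtain ⟨y, hy, rfl⟩ := mem_image.1 hu2
    obtain ⟨y', hy', rfl⟩ := mem_image.1 hu2'
    have hne : y ≠ y' := by
      rintro rfl
      exact disjoint_left.1 (tree_disj hne2) huy0 huy1
    rcases (hG' y hy y' hy' hne).2 (σ y) rfl (σ y') rfl with h3 | h3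
    · rw [hf _ huy0 _ huy1] at h3; exact absurd h3 (by simp)
    · rw [hf' _ huy1 _ huy0] at h3; exact absurd h3 (by simp)
  have h2 := adm_test h1 ha hB hA _ _ hU
  have h3 : ∑ y ∈ F', θ ≤ ∑ y ∈ F', ∑ z ∈ F'.image σ, a y z := sum_le_sum fun y hy =>
    ((hσ y (hY' (hF' hy))).2).trans
      (single_le_sum (f := fun z => a y z) (fun z _ => ha y z) (mem_image_of_mem σ hy))
  rw [sum_const, hFc, nsmul_eq_mul] at h3
  linarith only [hθ', h2, h3]

omit [Fintype W] [DecidableEq W] in
theorem copies_lt (P : W × Fin n → Prop) [DecidablePred fun i : Fin n => ∃ w, P (w, i)] (N : ℕ)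
    (hP : ∀ Y : Finset (W × Fin n), Set.InjOn Prod.snd (Y : Set (W × Fin n)) →
      (∀ y ∈ Y, P y) → Y.card < N) :
    (univ.filter fun i : Fin n => ∃ w, P (w, i)).card < N := by
  classical
  have hc : ∀ i : {i : Fin n // ∃ w, P (w, i)}, ∃ w, P (w, i.1) := fun i => i.2
  choose w hw using hc
  let f : {i : Fin n // ∃ w, P (w, i)} → W × Fin n := fun i => (w i, i.1)
  have hf : Function.Injective f := fun i j hij => Subtype.ext (congrArg Prod.snd hij)
  have := hP (univ.image f) (by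
      intro a ha b hb hab
      obtain ⟨i, _, rfl⟩ := mem_image.1 (mem_coe.1 ha)
      obtain ⟨j, _, rfl⟩ := mem_image.1 (mem_coe.1 hb)
      have : i = j := Subtype.ext hab
      rw [this]) (by
      intro y hy
      obtain ⟨i, _, rfl⟩ := mem_image.1 hy
      exact hw i)
  rw [card_image_of_injective _ hf, card_univ, Fintype.card_subtype] at this
  convert this

/-- The main finite estimate, for a fixed generic digraph. -/
theorem good_edge (E : W → W → Prop) (hCl : Cl anc K s h) (hK : 0 < K) (h1 : ∀ y, anc y y)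
    (h4 : ∀ x y z, E x y → anc x z → anc z y → z = x ∨ z = y)
    (h5 : ∀ x y, E x y → x ≠ y) (hM : 0 < M) {η θ : ℝ} (hη : 0 < η) (hθ0 : 0 < θ)
    (h7 : ∀ (c : W → ℕ × ℕ), (∀ w, c w ∈ range (⌊M / η⌋₊ + 1) ×ˢ range (⌊M / η⌋₊ + 1)) →
      ∃ x y, E x y ∧ c x = c y)
    (hθ : M < K * θ) (hθ' : M * Fintype.card W < K * θ) (ρ : ℕ)
    (hρ : M * (K * Fintype.card W) ≤ ρ * θ)
    (hn : s + s * (s + 1 + Fintype.card W * s + 1) +
      Fintype.card W * (s * (s + 1 + Fintype.card W * s + 1)) * ρ ≤ n)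
    {b : W × Fin n → W × Fin n → ℝ} (ha : ∀ y x, 0 ≤ a y x) (hb : ∀ y x, 0 ≤ b y x)
    (hA : Bdd (fam anc K h) M a) (hB : Bdd (fam anc K h) M b) :
    ∃ x y : W × Fin n, (x.2 = y.2 ∧ E x.1 y.1) ∧
      ∑ z, a y z * b z x - ∑ z, b y z * a z x ≤ 2 * η * M + 2 * θ * M * Fintype.card W := by
  classical
  set g := Fintype.card W with hg
  set D := s * (s + 1 + g * s + 1) with hD
  let J1 := univ.filter fun i : Fin n => ∃ w, M * g < ∑ z, a (w, i) z
  let J2 := univ.filter fun i : Fin n => ∃ w, ∃ z, z ∉ tree anc (w, i) ∧ θ ≤ a (w, i) z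
  let J3 := univ.filter fun i : Fin n => ∃ w, ∃ z, z ∉ tree anc (w, i) ∧ θ ≤ b (w, i) z
  have hJ1 : J1.card < s := copies_lt (fun y => M * g < ∑ z, a y z) s
    fun Y hY hh => heavy_rows hCl hK h1 ha hA Y hY hh
  have hJ2 : J2.card < D := copies_lt (fun y => ∃ z, z ∉ tree anc y ∧ θ ≤ a y z) D
    fun Y hY hh => big_entries hCl h1 ha hA hθ hθ' Y hY hh
  have hJ3 : J3.card < D := copies_lt (fun y => ∃ z, z ∉ tree anc y ∧ θ ≤ b y z) D
    fun Y hY hh => big_entries hCl h1 hb hB hθ hθ' Y hY hh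
  let X4 := ((univ : Finset W) ×ˢ J3).biUnion fun z => univ.filter fun x => θ ≤ b z x
  have hX4 : X4.card ≤ g * D * ρ := by
    refine (card_biUnion_le_card_mul _ _ ρ fun z _ => ?_).trans (Nat.mul_le_mul_right _ ?_)
    · have e1 := row_test h1 hb hB (adm_single (h := h) hK z)
      rw [sum_singleton] at e1
      have e2 : ∑ x ∈ univ.filter (fun x => θ ≤ b z x), θ ≤ ∑ x, b z x :=
        (sum_le_sum fun x hx => (mem_filter.1 hx).2).trans
          (sum_le_sum_of_subset_of_nonneg (filter_subset _ _) fun x _ _ => hb z x)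
      rw [sum_const, nsmul_eq_mul] at e2
      have e3 : ((univ.filter (fun x => θ ≤ b z x)).card : ℝ) * θ ≤ ρ * θ := by linarith only [hρ, e1, e2]
      exact_mod_cast le_of_mul_le_mul_right e3 hθ0
    · rw [card_product, card_univ]
      exact Nat.mul_le_mul_left _ hJ3.le
  let J4 := X4.image Prod.snd
  have hJ4 : J4.card ≤ g * D * ρ := card_image_le.trans hX4
  obtain ⟨i, hi⟩ : ∃ i : Fin n, i ∉ J1 ∪ J2 ∪ J4 := by
    by_contra hno
    push Not at hno
    have e1 : (univ : Finset (Fin n)).card ≤ (J1 ∪ J2 ∪ J4).card :=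
      card_le_card fun i _ => hno i
    have e2 := card_union_le (J1 ∪ J2) J4
    have e3 := card_union_le J1 J2
    rw [card_univ, Fintype.card_fin] at e1
    omega
  simp only [mem_union, not_or] at hi
  obtain ⟨⟨hi1, hi2⟩, hi4⟩ := hi
  have hfl : ∀ r : ℝ, 0 ≤ r → r ≤ M → ⌊r / η⌋₊ ∈ range (⌊M / η⌋₊ + 1) := fun r _ hr =>
    mem_range.2 (Nat.lt_succ_of_le (Nat.floor_le_floor (div_le_div_of_nonneg_right hr hη.le)))
  have hclose : ∀ r r' : ℝ, 0 ≤ r → 0 ≤ r' → ⌊r / η⌋₊ = ⌊r' / η⌋₊ → r - r' ≤ η := by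
    intro r r' hr hr' he
    have e1 := Nat.lt_floor_add_one (r / η)
    have e2 := Nat.floor_le (div_nonneg hr' hη.le)
    rw [he] at e1
    have e3 : r / η - r' / η ≤ 1 := by linarith only [e1, e2]
    rw [← sub_div, div_le_one hη] at e3
    exact e3
  obtain ⟨x0, y0, hE, hc⟩ := h7 (fun w => (⌊a (w, i) (w, i) / η⌋₊, ⌊b (w, i) (w, i) / η⌋₊))
    fun w => mem_product.2 ⟨hfl _ (ha _ _) (entry_le hK h1 ha hA _ _),
      hfl _ (hb _ _) (entry_le hK h1 hb hB _ _)⟩
  set x : W × Fin n := (x0, i) with hx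
  set y : W × Fin n := (y0, i) with hy
  have hxy : x ≠ y := fun e => h5 _ _ hE (congrArg Prod.fst e)
  refine ⟨x, y, ⟨rfl, hE⟩, ?_⟩
  have ca : a y y - a x x ≤ η := hclose _ _ (ha _ _) (ha _ _) (congrArg Prod.fst hc).symm
  have cb : b x x - b y y ≤ η := hclose _ _ (hb _ _) (hb _ _) (congrArg Prod.snd hc)
  have low : b y y * a y x + b y x * a x x ≤ ∑ z, b y z * a z x := by
    have : ∑ z ∈ {y, x}, b y z * a z x ≤ ∑ z, b y z * a z x :=
      sum_le_sum_of_subset_of_nonneg (subset_univ _) fun z _ _ => mul_nonneg (hb _ _) (ha _ _)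
    rwa [sum_pair hxy.symm] at this
  have split : ∑ z, a y z * b z x =
      a y y * b y x + a y x * b x x + ∑ z ∈ univ \ {y, x}, a y z * b z x := by
    rw [← sum_sdiff (subset_univ {y, x}), sum_pair hxy.symm]; ring
  have hrow : ∑ z, a y z ≤ M * g := by
    by_contra hlt
    exact hi1 (mem_filter.2 ⟨mem_univ _, y0, not_le.1 hlt⟩)
  have term : ∀ z ∈ univ \ ({y, x} : Finset (W × Fin n)),
      a y z * b z x ≤ a y z * θ + (if z.2 = i then θ * M else 0) := by
    intro z hz
    replace hz : z ≠ y ∧ z ≠ x := by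
      have := (Finset.mem_sdiff.1 hz).2
      simpa [not_or] using this
    have hif : 0 ≤ (if z.2 = i then θ * M else 0) := by split_ifs <;> positivity
    by_cases hbz : θ ≤ b z x
    · have hz3 : z.2 ∉ J3 := fun h3 => hi4 (mem_image.2 ⟨x, mem_biUnion.2 ⟨z,
        mem_product.2 ⟨mem_univ _, h3⟩, mem_filter.2 ⟨mem_univ _, hbz⟩⟩, rfl⟩)
      have hxz : x ∈ tree anc z := by
        by_contra hno
        exact hz3 (mem_filter.2 ⟨mem_univ _, z.1, x, hno, hbz⟩)
      obtain ⟨e1, e2⟩ := (mem_tree anc).1 hxz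
      have e1' : z.2 = i := e1.symm
      have hzy : z ∉ tree anc y := by
        intro h6
        rcases h4 _ _ _ hE e2 ((mem_tree anc).1 h6).2 with e | e
        · exact hz.2 (Prod.ext e e1')
        · exact hz.1 (Prod.ext e e1')
      have haz : a y z < θ := by
        by_contra hge
        exact hi2 (mem_filter.2 ⟨mem_univ _, y0, z, hzy, not_lt.1 hge⟩)
      rw [if_pos e1']
      have e3 := entry_le hK h1 hb hB z x
      have e4 : a y z * b z x ≤ θ * M := mul_le_mul haz.le e3 (hb _ _) hθ0.le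
      have e5 : 0 ≤ a y z * θ := mul_nonneg (ha _ _) hθ0.le
      linarith only [e4, e5]
    · have : a y z * b z x ≤ a y z * θ := mul_le_mul_of_nonneg_left (not_le.1 hbz).le (ha _ _)
      linarith only [hif, this]
  have rest : ∑ z ∈ univ \ {y, x}, a y z * b z x ≤ 2 * θ * M * g := by
    refine (sum_le_sum term).trans ((sum_le_sum_of_subset_of_nonneg (subset_univ _)
      fun z _ _ => add_nonneg (mul_nonneg (ha _ _) hθ0.le) (by split_ifs <;> positivity)).trans ?_)
    have e0 : ∑ z : W × Fin n, (if z.2 = i then θ * M else 0) = g * (θ * M) := by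
      rw [Fintype.sum_prod_type]
      simp [hg]
    rw [sum_add_distrib, ← sum_mul, e0]
    have : (∑ z, a y z) * θ ≤ M * g * θ := mul_le_mul_of_nonneg_right hrow hθ0.le
    linarith only [this]
  have e1 := entry_le hK h1 hb hB y x
  have e2 := entry_le hK h1 ha hA y x
  have e3 : (a y y - a x x) * b y x ≤ η * M :=
    (mul_le_mul_of_nonneg_right ca (hb _ _)).trans (mul_le_mul_of_nonneg_left e1 hη.le)
  have e4 : (b x x - b y y) * a y x ≤ η * M :=
    (mul_le_mul_of_nonneg_right cb (ha _ _)).trans (mul_le_mul_of_nonneg_left e2 hη.le)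
  linarith only [low, split, rest, e3, e4]

end

/-- The finite block. -/
theorem finite_block (M ε : ℝ) (hM : 0 < M) (hε : 0 < ε) :
    ∃ (V : Type) (_ : Fintype V) (_ : DecidableEq V) (Φ : Finset (Finset V)) (E : V → V → Prop)
      (lev : V → ℕ), (∀ w, ∃ S ∈ Φ, w ∈ S) ∧ (∀ x y, E x y → lev x < lev y) ∧
      (∀ S ∈ Φ, ∀ x y, y ∈ S → E x y → x ∈ S) ∧
      (∀ S ∈ Φ, ∀ x y y', y ∈ S → y' ∈ S → E x y → E x y' → y = y') ∧
      ∀ a b : V → V → ℝ, (∀ y x, 0 ≤ a y x) → (∀ y x, 0 ≤ b y x) → Bdd Φ M a → Bdd Φ M b →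
        ∃ x y, E x y ∧ ∑ z, a y z * b z x - ∑ z, b y z * a z x < ε := by
  classical
  set η : ℝ := ε / (8 * M) with hη
  have hη0 : 0 < η := by positivity
  obtain ⟨W, _, E, anc, lev, h1, h2, h3, h4, h5, _, h7⟩ :=
    zykov ((⌊M / η⌋₊ + 1) * (⌊M / η⌋₊ + 1))
  set g := Fintype.card W with hg
  set θ : ℝ := ε / (8 * M * (g + 1)) with hθ
  have hθ0 : 0 < θ := by positivity
  obtain ⟨K, hK⟩ := exists_nat_gt (M * (g + 1) / θ)
  rw [div_lt_iff₀ hθ0] at hK
  have hg0 : (0 : ℝ) ≤ g := Nat.cast_nonneg _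
  have hK1 : M < K * θ := by linarith only [hK, hM, mul_nonneg_of_nonpos_of_nonpos (Mathlib.Tactic.Linarith.sub_nonpos_of_le (Mathlib.Tactic.Linarith.natCast_nonneg ℝ g)) (le_of_lt (Mathlib.Tactic.Linarith.sub_neg_of_lt hM))]
  have hK2 : M * g < K * θ := by linarith only [hM, hK]
  have hK0 : 0 < K := by
    rcases Nat.eq_zero_or_pos K with rfl | h
    · simp at hK1; linarith only [hM, hK1]
    · exact h
  obtain ⟨ρ, hρ⟩ := exists_nat_ge (M * (K * g) / θ)
  rw [div_le_iff₀ hθ0] at hρ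
  set c : ℕ := 1 + (g + 3) * (1 + g * ρ) with hc
  set q : ℝ := 1 - 1 / 2 ^ (2 * (g + 1) ^ 2) with hq
  have hq0 : 0 ≤ q := by
    have h2 : (0 : ℝ) < 2 ^ (2 * (g + 1) ^ 2) := by positivity
    have : (1 : ℝ) / 2 ^ (2 * (g + 1) ^ 2) ≤ 1 := by
      rw [div_le_one h2]; exact one_le_pow₀ (by norm_num)
    linarith only [this]
  have hq1 : q < 1 := by
    have : (0 : ℝ) < 1 / 2 ^ (2 * (g + 1) ^ 2) := by positivity
    linarith only [this]
  have hlim := (tendsto_pow_const_mul_const_pow_of_abs_lt_one (8 * K)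
    (r := q) (by rwa [abs_of_nonneg hq0])).const_mul (((g * c + 1 : ℕ) : ℝ) ^ 4 * 3 ^ (8 * K))
  rw [mul_zero] at hlim
  obtain ⟨t, ht1, ht⟩ := ((eventually_gt_atTop 0).and
    (hlim.eventually (gt_mem_nhds (by norm_num : (0 : ℝ) < 1)))).exists
  set s := (3 * t) ^ K with hs
  have hs1 : 1 ≤ s := Nat.one_le_pow _ _ (by omega)
  set n := c * s ^ 2 with hn
  obtain ⟨h, hCl⟩ := exists_Cl (n := n) anc K t ht1 (by
    have e1 : Fintype.card ((W × Fin n) × Option (W × Fin n)) ≤ ((g * c + 1) * s ^ 2) ^ 2 := by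
      simp only [Fintype.card_prod, Fintype.card_option, Fintype.card_fin, ← hg]
      have : 1 ≤ s ^ 2 := Nat.one_le_pow _ _ hs1
      have e2 : g * n + 1 ≤ (g * c + 1) * s ^ 2 := by rw [hn]; linarith only [this]
      rw [pow_two]
      exact Nat.mul_le_mul (by omega) e2
    have e2 : ((Fintype.card ((W × Fin n) × Option (W × Fin n)) : ℕ) : ℝ)
        ≤ (((g * c + 1) * s ^ 2) ^ 2 : ℕ) := by exact_mod_cast e1
    have e3 : ((Fintype.card ((W × Fin n) × Option (W × Fin n)) : ℕ) : ℝ) ^ 2 * q ^ t < 1 := by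
      refine lt_of_le_of_lt ?_ ht
      rw [← mul_assoc]
      refine mul_le_mul_of_nonneg_right ?_ (pow_nonneg hq0 _)
      refine (pow_le_pow_left₀ (Nat.cast_nonneg _) e2 2).trans (le_of_eq ?_)
      rw [hs]; push_cast; ring
    rw [pow_mul, pow_mul, ← mul_pow]
    exact pow_lt_one₀ (by positivity) e3 (by omega))
  refine ⟨W × Fin n, inferInstance, inferInstance, fam anc K h,
    fun x y => x.2 = y.2 ∧ E x.1 y.1, fun x => lev x.1, ?_, ?_, ?_, ?_, ?_⟩
  · intro w
    exact ⟨_, (mem_fam anc).2 ⟨{w}, adm_single hK0 w, rfl⟩,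
      mem_biUnion.2 ⟨w, mem_singleton_self _, (mem_tree anc).2 ⟨rfl, h1 _⟩⟩⟩
  · exact fun x y hE => h5 _ _ hE.2
  · intro S hS x y hy hE
    obtain ⟨F, _, rfl⟩ := (mem_fam anc).1 hS
    obtain ⟨r, hr, hyr⟩ := mem_biUnion.1 hy
    rw [mem_tree] at hyr
    exact mem_biUnion.2 ⟨r, hr, (mem_tree anc).2 ⟨hE.1.trans hyr.1, h2 _ _ _ hE.2 hyr.2⟩⟩
  · intro S hS x y y' hy hy' hE hE'
    obtain ⟨F, hF, rfl⟩ := (mem_fam anc).1 hS
    obtain ⟨r, hr, hyr⟩ := mem_biUnion.1 hy
    obtain ⟨r', hr', hyr'⟩ := mem_biUnion.1 hy'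
    rw [mem_tree] at hyr hyr'
    have : r = r' := by
      by_contra hne
      exact (hF.2 r hr r' hr' hne).1 (hyr.1.symm.trans (hE.1.symm.trans (hE'.1.trans hyr'.1)))
    subst this
    exact Prod.ext (h3 _ _ _ _ hE.2 hE'.2 hyr.2 hyr'.2) (hE.1.symm.trans hE'.1)
  · intro a b ha hb hA hB
    obtain ⟨x, y, hE, hle⟩ := good_edge E hCl hK0 h1 h4
      (fun x y hE e => absurd (h5 _ _ hE) (by rw [e]; exact lt_irrefl _)) hM hη0 hθ0
      (fun c hc => h7 c _ (by rw [card_product, card_range]) hc) hK1 hK2 ρ hρ (by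
        rw [← hg, ← hs, hn, hc]
        have e1 : s ≤ s ^ 2 := by nlinarith only [hs1]
        have e2 : s * (s + 1 + g * s + 1) ≤ (g + 3) * s ^ 2 := by linarith only [e1]
        have e3 : g * (s * (s + 1 + g * s + 1)) * ρ ≤ g * ((g + 3) * s ^ 2) * ρ :=
          Nat.mul_le_mul_right _ (Nat.mul_le_mul_left _ e2)
        linarith only [e1, e3]) ha hb hA hB
    refine ⟨x, y, hE, hle.trans_lt ?_⟩
    rw [← hg]
    have e1 : 2 * η * M = ε / 4 := by rw [hη]; field_simp; ring
    have e2 : 2 * θ * M * (g + 1) = ε / 4 := by rw [hθ]; field_simp; ring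
    have e3 : 0 < θ * M := by positivity
    linarith only [hε, e1, e2, e3]

end Pool.Agent.Work.MP_4e33a2_an
end

-- merged part: Pool.Agent.Work.MP_4e33a2_an.Oper
section
set_option autoImplicit false
set_option linter.unusedSectionVars false

namespace Pool.Agent.Work.MP_4e33a2_an

open Finset Filter Topology

namespace Sp

variable {β : ℕ → Blk}

theorem co_apply (m : ℕ) (w : (β m).V) (x : Sp β) : co ⟨m, w⟩ x = Blk.get w (x.val m) := rfl

theorem ev_apply (m : ℕ) (x : Sp β) : ev m x = x.val m := rfl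

/-- The sum of all coordinates in the blocks before `m`. -/
noncomputable def past (β : ℕ → Blk) (m : ℕ) : Sp β →L[ℝ] ℝ :=
  ∑ k ∈ range m, ∑ u : (β k).V, co ⟨k, u⟩

theorem past_apply (m : ℕ) (x : Sp β) :
    past β m x = ∑ k ∈ range m, ∑ u : (β k).V, co ⟨k, u⟩ x := by
  simp [past]

/-- The small weights of the connecting part. -/
noncomputable def del (β : ℕ → Blk) (m : ℕ) : ℝ :=
  (1 / 2) ^ m / (‖past β m‖ * ‖(Blk.ind univ : (β m).F)‖ + 1)

theorem del_pos (m : ℕ) : 0 < del β m := by unfold del; positivity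

/-- The `m`-th row of blocks of the operator. -/
noncomputable def row (β : ℕ → Blk) (m : ℕ) : Sp β →L[ℝ] (β m).F :=
  ((1 / 2 : ℝ) ^ m) • ((β m).adj.comp (ev m)) + del β m • (past β m).smulRight (Blk.ind univ)

theorem row_apply (m : ℕ) (x : Sp β) : row β m x =
    ((1 / 2 : ℝ) ^ m) • (β m).adj (x.val m) + (del β m * past β m x) • Blk.ind univ := by
  simp [row, ev_apply, smul_smul]

theorem norm_row (m : ℕ) (x : Sp β) : ‖row β m x‖ ≤ 2 * ‖x‖ * (1 / 2) ^ m := by
  rw [row_apply]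
  refine (norm_add_le _ _).trans ?_
  rw [norm_smul, norm_smul, Real.norm_of_nonneg (by positivity), norm_mul,
    Real.norm_of_nonneg (del_pos m).le]
  have e1 := (Blk.norm_adj (x.val m)).trans (norm_val_le x m)
  have e2 := (past β m).le_opNorm x
  set a := ‖past β m‖
  set b := ‖(Blk.ind univ : (β m).F)‖
  have ha : 0 ≤ a := norm_nonneg _
  have hb : 0 ≤ b := norm_nonneg _
  have e3 : del β m * (a * b) ≤ (1 / 2) ^ m := by
    unfold del
    rw [div_mul_eq_mul_div, div_le_iff₀ (by positivity)]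
    exact mul_le_mul_of_nonneg_left (by linarith) (by positivity)
  have e4 : del β m * ‖past β m x‖ * b ≤ del β m * (a * ‖x‖) * b :=
    mul_le_mul_of_nonneg_right (mul_le_mul_of_nonneg_left e2 (del_pos m).le) hb
  have e5 := mul_le_mul_of_nonneg_right e3 (norm_nonneg x)
  have e6 := mul_le_mul_of_nonneg_left e1 (by positivity : (0 : ℝ) ≤ (1 / 2) ^ m)
  linarith only [e4, e5, e6]

theorem mem_row (x : Sp β) : Memℓp (fun m => row β m x) 1 := by
  refine memℓp_gen ?_
  simp only [ENNReal.toReal_one, Real.rpow_one]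
  exact Summable.of_nonneg_of_le (fun _ => norm_nonneg _) (fun m => norm_row m x)
    (summable_geometric_two.mul_left _)

/-- The operator. -/
noncomputable def op (β : ℕ → Blk) : Sp β →L[ℝ] Sp β :=
  LinearMap.mkContinuous
    { toFun := fun x => mk (fun m => row β m x) (mem_row x)
      map_add' := fun x y => val_inj (funext fun m => map_add (row β m) x y)
      map_smul' := fun a x => val_inj (funext fun m => map_smul (row β m) a x) } 4 fun x => by
    have := norm_le_tail (mk (fun m => row β m x) (mem_row x)) (c := 2 * ‖x‖) 0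
      (fun m hm => absurd hm (Nat.not_lt_zero m)) fun m => norm_row m x
    refine this.trans (le_of_eq ?_)
    ring

theorem op_val (x : Sp β) (m : ℕ) : (op β x).val m = row β m x := rfl

open Classical in
theorem co_op (m : ℕ) (w : (β m).V) (x : Sp β) : co ⟨m, w⟩ (op β x) =
    (1 / 2 : ℝ) ^ m * ∑ u ∈ univ.filter fun u => (β m).Ed u w, co ⟨m, u⟩ x
      + del β m * ∑ k ∈ range m, ∑ u : (β k).V, co ⟨k, u⟩ x := by
  rw [co_apply, op_val, row_apply, map_add, map_smul, map_smul, Blk.get_ind, if_pos (mem_univ _),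
    past_apply, smul_eq_mul, smul_eq_mul, mul_one]
  rfl

theorem op_pos : Pos (op β) := by
  intro x hx
  refine ((atomic β).nonneg_iff _).2 ?_
  rintro ⟨m, w⟩
  have h := ((atomic β).nonneg_iff _).1 hx
  show 0 ≤ co ⟨m, w⟩ (op β x)
  rw [co_op]
  exact add_nonneg (mul_nonneg (by positivity) (sum_nonneg fun u _ => h _))
    (mul_nonneg (del_pos m).le (sum_nonneg fun k _ => sum_nonneg fun u _ => h _))

/-- The map sending a vector to its component, as a linear map. -/
theorem val_sum (m : ℕ) (s : Finset ℕ) (f : ℕ → Sp β) :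
    (∑ k ∈ s, f k).val m = ∑ k ∈ s, (f k).val m := map_sum (ev m) f s

theorem op_compact : IsCompactOperator (op β) := by
  let T : ℕ → Sp β →L[ℝ] Sp β := fun N => ∑ k ∈ range N, (sing k).comp (row β k)
  have hT : ∀ N, IsCompactOperator (T N) := by
    intro N
    induction N with
    | zero => simpa [T] using isCompactOperator_zero
    | succ N ih =>
      have : ProperSpace (β N).F := FiniteDimensional.proper_real _
      have h2 : IsCompactOperator ((sing N).comp (row β N)) :=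
        (isCompactOperator_of_locallyCompactSpace_dom (row β N)).clm_comp (sing N)
      have := ih.add h2
      simp only [T, sum_range_succ]
      exact this
  have hval : ∀ N x m, (T N x).val m = if m < N then row β m x else 0 := by
    intro N x m
    have : T N x = ∑ k ∈ range N, sing k (row β k x) := by simp [T]
    rw [this, val_sum]
    split_ifs with hm
    · rw [sum_eq_single m (fun k _ hk => sing_ne hk.symm _) fun h => absurd (mem_range.2 hm) h,
        sing_self]
    · exact sum_eq_zero fun k hk => sing_ne (by rw [mem_range] at hk; omega) _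
  have hb : ∀ N, ‖T N - op β‖ ≤ 4 * (1 / 2) ^ N := by
    intro N
    refine ContinuousLinearMap.opNorm_le_bound _ (by positivity) fun x => ?_
    have hv : ∀ m, ((T N - op β) x).val m = (T N x).val m - row β m x := fun m => rfl
    have := norm_le_tail ((T N - op β) x) (c := 2 * ‖x‖) N
      (fun m hm => by rw [hv, hval, if_pos hm, sub_self]) fun m => by
        rw [hv, hval]
        split_ifs
        · rw [sub_self, norm_zero]; positivity
        · rw [zero_sub, norm_neg]; exact norm_row m x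
    refine this.trans (le_of_eq ?_)
    ring
  refine isCompactOperator_of_tendsto (l := atTop) (F := T) ?_ (Eventually.of_forall hT)
  rw [tendsto_iff_norm_sub_tendsto_zero]
  refine squeeze_zero (fun _ => norm_nonneg _) hb ?_
  have := (tendsto_pow_atTop_nhds_zero_of_lt_one (r := (1 / 2 : ℝ)) (by norm_num)
    (by norm_num)).const_mul 4
  rwa [mul_zero] at this

/-- Offsets for a global rank function. -/
def off (β : ℕ → Blk) (m : ℕ) : ℕ := ∑ k ∈ range m, (univ.sup (β k).lev + 1)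

theorem off_lt {k m : ℕ} (h : k < m) (u : (β k).V) : off β k + (β k).lev u < off β m := by
  have e1 : off β (k + 1) ≤ off β m :=
    sum_le_sum_of_subset (range_subset_range.2 h)
  have e2 : off β (k + 1) = off β k + (univ.sup (β k).lev + 1) := sum_range_succ _ _
  have e3 : (β k).lev u ≤ univ.sup (β k).lev := le_sup (f := (β k).lev) (mem_univ u)
  omega

theorem op_pow_zero (N : ℕ) (x : Sp β) : ∀ (m : ℕ) (w : (β m).V), off β m + (β m).lev w < N →
    co ⟨m, w⟩ ((op β ^ N) x) = 0 := by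
  classical
  induction N with
  | zero => intro m w h; exact absurd h (Nat.not_lt_zero _)
  | succ N ih =>
    intro m w h
    rw [pow_succ']
    show co ⟨m, w⟩ (op β ((op β ^ N) x)) = 0
    rw [co_op, sum_eq_zero, sum_eq_zero, mul_zero, mul_zero, add_zero]
    · intro k hk
      refine sum_eq_zero fun u _ => ih k u ?_
      have := off_lt (mem_range.1 hk) u
      omega
    · intro u hu
      have := (β m).lev_lt _ _ (mem_filter.1 hu).2
      exact ih m u (by omega)

theorem op_tail (M : ℕ) (x : Sp β) (h : ∀ m < M, x.val m = 0) :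
    (∀ m < M, (op β x).val m = 0) ∧ ‖op β x‖ ≤ 4 * (1 / 2) ^ M * ‖x‖ := by
  have h0 : ∀ m < M, (op β x).val m = 0 := by
    intro m hm
    refine Blk.ext' fun w => ?_
    rw [← co_apply, co_op, sum_eq_zero, sum_eq_zero, mul_zero, mul_zero, add_zero, map_zero]
    · intro k hk
      refine sum_eq_zero fun u _ => ?_
      rw [co_apply, h k (lt_trans (mem_range.1 hk) hm), map_zero]
    · intro u _
      rw [co_apply, h m hm, map_zero]
  refine ⟨h0, (norm_le_tail (op β x) (c := 2 * ‖x‖) M h0 fun m => norm_row m x).trans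
    (le_of_eq ?_)⟩
  ring

theorem op_pow_le (M k : ℕ) :
    ‖op β ^ (k + off β M)‖ ≤ ‖op β ^ off β M‖ * (4 * (1 / 2) ^ M) ^ k := by
  refine ContinuousLinearMap.opNorm_le_bound _ (by positivity) fun x => ?_
  have key : (∀ m < M, ((op β ^ (k + off β M)) x).val m = 0) ∧
      ‖(op β ^ (k + off β M)) x‖ ≤ ‖op β ^ off β M‖ * (4 * (1 / 2) ^ M) ^ k * ‖x‖ := by
    induction k with
    | zero =>
      refine ⟨fun m hm => Blk.ext' fun w => ?_, ?_⟩
      · rw [zero_add, ← co_apply, op_pow_zero _ _ _ _ (off_lt hm w), map_zero]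
      · rw [zero_add, pow_zero, mul_one]; exact ContinuousLinearMap.le_opNorm _ _
    | succ k ih =>
      have e : (op β ^ (k + 1 + off β M)) x = op β ((op β ^ (k + off β M)) x) := by
        rw [show k + 1 + off β M = (k + off β M) + 1 by ring, pow_succ']; rfl
      rw [e]
      obtain ⟨a1, a2⟩ := op_tail M _ ih.1
      refine ⟨a1, a2.trans ((mul_le_mul_of_nonneg_left ih.2 (by positivity)).trans
        (le_of_eq ?_))⟩
      ring
  exact key.2

theorem op_qn : Tendsto (fun n : ℕ => ‖op β ^ n‖ ^ (1 / (n : ℝ))) atTop (𝓝 0) := by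
  rw [Metric.tendsto_atTop]
  intro ε hε
  obtain ⟨M, hM⟩ := exists_pow_lt_of_lt_one (x := ε / 8) (y := (1 / 2 : ℝ)) (by positivity)
    (by norm_num)
  set τ : ℝ := 4 * (1 / 2) ^ M with hτ
  have hτ0 : 0 < τ := by positivity
  set N := off β M with hN
  obtain ⟨N1, hN1⟩ := pow_unbounded_of_one_lt (‖op β ^ N‖ / τ ^ N) (by norm_num : (1 : ℝ) < 2)
  refine ⟨max (max N N1) 1, fun n hn => ?_⟩
  have h1 : N ≤ n := le_trans (le_trans (le_max_left _ _) (le_max_left _ _)) hn
  have h2 : N1 ≤ n := le_trans (le_trans (le_max_right _ _) (le_max_left _ _)) hn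
  have h3 : n ≠ 0 := by have := le_trans (le_max_right _ _) hn; omega
  obtain ⟨k, rfl⟩ := Nat.exists_eq_add_of_le' h1
  have e1 := op_pow_le (β := β) M k
  rw [← hN, ← hτ] at e1
  have e2 : ‖op β ^ N‖ ≤ 2 ^ (k + N) * τ ^ N := by
    rw [div_lt_iff₀ (by positivity)] at hN1
    exact hN1.le.trans (mul_le_mul_of_nonneg_right (pow_le_pow_right₀ (by norm_num) h2)
      (by positivity))
  have e3 : ‖op β ^ (k + N)‖ ≤ (2 * τ) ^ (k + N) := by
    refine e1.trans ((mul_le_mul_of_nonneg_right e2 (by positivity)).trans (le_of_eq ?_))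
    rw [mul_pow 2 τ, pow_add τ]; ring
  rw [Real.dist_eq, sub_zero, abs_of_nonneg (by positivity)]
  refine (Real.rpow_le_rpow (norm_nonneg _) e3 (by positivity)).trans_lt ?_
  rw [one_div, Real.pow_rpow_inv_natCast (by positivity) h3]
  rw [hτ]; linarith only [hM]

theorem op_entry_pos {k m : ℕ} (h : k < m) (u : (β k).V) (w : (β m).V) :
    0 < co ⟨m, w⟩ (op β (e ⟨k, u⟩)) := by
  have hn : ∀ i, 0 ≤ co i (e ⟨k, u⟩ : Sp β) := (atomic β).co_nonneg ((atomic β).e_nonneg _)
  rw [co_op]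
  refine add_pos_of_nonneg_of_pos (mul_nonneg (by positivity) (sum_nonneg fun u _ => hn _))
    (mul_pos (del_pos m) ?_)
  refine lt_of_lt_of_le ?_ (single_le_sum (f := fun j => ∑ u' : (β j).V, co ⟨j, u'⟩ (e ⟨k, u⟩))
    (fun j _ => sum_nonneg fun u _ => hn _) (mem_range.2 h))
  refine lt_of_lt_of_le ?_ (single_le_sum (f := fun u' : (β k).V => co ⟨k, u'⟩ (e ⟨k, u⟩))
    (fun j _ => hn _) (mem_univ u))
  exact lt_of_lt_of_eq zero_lt_one ((atomic β).co_self ⟨k, u⟩).symm

theorem op_entry_edge {m : ℕ} {x y : (β m).V} (h : (β m).Ed x y) :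
    (1 / 2 : ℝ) ^ m ≤ co ⟨m, y⟩ (op β (e ⟨m, x⟩)) := by
  classical
  have hn : ∀ i, 0 ≤ co i (e ⟨m, x⟩ : Sp β) := (atomic β).co_nonneg ((atomic β).e_nonneg _)
  rw [co_op]
  refine le_add_of_le_of_nonneg (le_mul_of_one_le_right (by positivity) ?_)
    (mul_nonneg (del_pos m).le (sum_nonneg fun k _ => sum_nonneg fun u _ => hn _))
  refine le_trans ?_ (single_le_sum (f := fun u' : (β m).V => co ⟨m, u'⟩ (e ⟨m, x⟩))
    (fun j _ => hn _) (mem_filter.2 ⟨mem_univ x, h⟩))
  exact ((atomic β).co_self ⟨m, x⟩).ge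

theorem bdd_of_pos {X : Sp β →L[ℝ] Sp β} (m : ℕ) {M : ℝ} (hM : ‖X‖ ≤ M) :
    Bdd (β m).Φ M fun y z => co ⟨m, y⟩ (X (e ⟨m, z⟩)) := by
  intro U c hU S hS
  have e1 : ∀ y, ∑ z ∈ U, co ⟨m, y⟩ (X (e ⟨m, z⟩)) = co ⟨m, y⟩ (X (sing m (Blk.ind U))) := by
    intro y
    rw [Blk.ind_eq_sum, map_sum, map_sum, map_sum]; rfl
  simp only [e1]
  have e2 : ‖(Blk.ind U : (β m).F)‖ ≤ c := by
    refine Blk.N_le _ (Nat.cast_nonneg c) fun S' hS' => ?_
    have : ∑ w ∈ S', |(Blk.ind U : (β m).F) w| = (S' ∩ U).card := by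
      have : ∀ w, |(Blk.ind U : (β m).F) w| = if w ∈ U then 1 else 0 := fun w => by
        unfold Blk.ind; split_ifs <;> simp
      simp only [this]
      rw [sum_ite_mem, sum_const, nsmul_eq_mul, mul_one]
    rw [this]
    exact_mod_cast hU S' hS'
  refine (sum_le_sum fun y _ => le_abs_self _).trans
    ((Blk.le_N ((X (sing m (Blk.ind U))).val m) hS).trans ?_)
  refine (norm_val_le _ m).trans ((X.le_opNorm _).trans ?_)
  rw [norm_sing]
  exact mul_le_mul hM e2 (norm_nonneg _) ((norm_nonneg _).trans hM)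

theorem entry_prod {X Y : Sp β →L[ℝ] Sp β}
    (hX : ∀ k m, k < m → ∀ (u : (β k).V) (w : (β m).V), co ⟨k, u⟩ (X (e ⟨m, w⟩)) = 0)
    (hY : ∀ k m, k < m → ∀ (u : (β k).V) (w : (β m).V), co ⟨k, u⟩ (Y (e ⟨m, w⟩)) = 0)
    (m : ℕ) (x y : (β m).V) : co ⟨m, y⟩ (X (Y (e ⟨m, x⟩))) =
      ∑ z, co ⟨m, y⟩ (X (e ⟨m, z⟩)) * co ⟨m, z⟩ (Y (e ⟨m, x⟩)) := by
  set v := Y (e ⟨m, x⟩) with hv
  have e1 : co ⟨m, y⟩ (X (v - sing m (v.val m))) = 0 := by
    refine (atomic β).kill ((co ⟨m, y⟩).comp X) _ ?_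
    rintro ⟨k, z⟩ hz
    have e0 : (atomic β).co ⟨k, z⟩ (v - sing m (v.val m))
        = Blk.get z (v.val k) - Blk.get z ((sing m (v.val m) : Sp β).val k) := map_sub _ _ _
    rw [e0] at hz
    rcases lt_trichotomy k m with h | h | h
    · rw [sing_ne h.ne, map_zero, sub_zero] at hz
      exact absurd (hY k m h z x) hz
    · subst h
      rw [sing_self, sub_self] at hz
      exact absurd rfl hz
    · exact hX m k h y z
  rw [map_sub, map_sub, sub_eq_zero] at e1
  rw [e1, sing_eq, map_sum, map_sum]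
  refine sum_congr rfl fun z _ => ?_
  rw [map_smul, map_smul, smul_eq_mul, mul_comm, co_apply m z]

end Sp

theorem counterexample : ∃ β : ℕ → Blk, ∀ A B : Sp β →L[ℝ] Sp β, Pos A → Pos B →
    (IsCompactOperator A ∨ IsCompactOperator B) → Sp.op β ≠ A * B - B * A := by
  choose V fin dec Φ Ed lev h1 h2 h3 h4 h5 using fun m : ℕ =>
    finite_block ((m : ℝ) + 1) ((1 / 2) ^ m) (by positivity) (by positivity)
  let β : ℕ → Blk := fun m => ⟨V m, fin m, dec m, Φ m, Ed m, lev m, h1 m, h2 m, h3 m, h4 m⟩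
  refine ⟨β, fun A B hA hB hc heq => ?_⟩
  have tri := fun k m (h : k < m) (u : (β k).V) (w : (β m).V) =>
    (Sp.atomic β).triangular hA hB (heq ▸ Sp.op_pos) hc ⟨k, u⟩ ⟨m, w⟩
      (heq ▸ Sp.op_entry_pos h u w)
  obtain ⟨m, hm⟩ := exists_nat_ge (max ‖A‖ ‖B‖)
  have ent : ∀ X : Sp β →L[ℝ] Sp β, Pos X → ∀ y z : (β m).V,
      0 ≤ Sp.co ⟨m, y⟩ (X (Sp.e ⟨m, z⟩)) := fun X hX y z =>
    (Sp.atomic β).co_nonneg (hX _ ((Sp.atomic β).e_nonneg _)) _
  obtain ⟨x, y, hE, hlt⟩ := h5 m _ _ (ent A hA) (ent B hB)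
    (Sp.bdd_of_pos (β := β) m (by linarith only [hm, le_max_left ‖A‖ ‖B‖]))
    (Sp.bdd_of_pos (β := β) m (by linarith [le_max_right ‖A‖ ‖B‖]))
  have e1 := Sp.op_entry_edge (β := β) (m := m) hE
  have e2 := Sp.entry_prod (X := A) (Y := B) (fun k m h u w => (tri k m h u w).1)
    (fun k m h u w => (tri k m h u w).2) m x y
  have e3 := Sp.entry_prod (X := B) (Y := A) (fun k m h u w => (tri k m h u w).2)
    (fun k m h u w => (tri k m h u w).1) m x y
  have e4 : Sp.co ⟨m, y⟩ ((A * B - B * A) (Sp.e ⟨m, x⟩)) =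
      Sp.co ⟨m, y⟩ (A (B (Sp.e ⟨m, x⟩))) - Sp.co ⟨m, y⟩ (B (A (Sp.e ⟨m, x⟩))) := map_sub _ _ _
  rw [heq, e4, e2, e3] at e1
  exact absurd hlt (not_lt.2 e1)

end Pool.Agent.Work.MP_4e33a2_an
end
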