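import Pool.Agent.Work.MP_4e33a2_an.Oper

/-! The counterexample is not even dominated by a commutator; the atoms form an unconditional
basis. -/

set_option autoImplicit false

namespace Pool.Agent.Work.MP_4e33a2_an

open Finset Filter Topology

theorem Sp.norm_P {β : ℕ → Blk} (S : Set (Σ m, (β m).V)) (x : Sp β) : ‖Sp.P S x‖ ≤ ‖x‖ := by
  have := (Sp.P S).le_of_opNorm_le (LinearMap.mkContinuous_norm_le _ zero_le_one _) x
  rwa [one_mul] at this

theorem Sp.hasSum_basis {β : ℕ → Blk} (x : Sp β) :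
    HasSum (fun i => Sp.co i x • (Sp.e i : Sp β)) x := by
  classical
  have h1 : ∀ (S : Finset (Σ m, (β m).V)) (y : Sp β),
      ∑ i ∈ S, Sp.co i y • (Sp.e i : Sp β) = Sp.P S y := by
    intro S y
    refine (Sp.atomic β).ext' fun j => ?_
    rw [map_sum]
    by_cases hj : j ∈ S
    · rw [sum_eq_single_of_mem j hj fun i _ hi => by
        rw [map_smul]; exact smul_eq_zero_of_right _ ((Sp.atomic β).co_ne j i hi.symm), map_smul]
      exact (congrArg (Sp.co j y • ·) ((Sp.atomic β).co_self j)).trans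
        ((mul_one _).trans ((Sp.atomic β).P_in S y j hj).symm)
    · rw [sum_eq_zero fun i hi => by
        rw [map_smul]
        exact smul_eq_zero_of_right _ ((Sp.atomic β).co_ne j i fun e => hj (e ▸ hi))]
      exact ((Sp.atomic β).P_out S y j hj).symm
  refine Metric.tendsto_atTop.2 fun ε hε => ?_
  obtain ⟨y, hy, hxy⟩ := Metric.mem_closure_iff.1 ((Sp.atomic β).dense x) (ε / 2) (by positivity)
  have h2 : ∃ S0 : Finset (Σ m, (β m).V), ∀ S ≥ S0, Sp.P S y = y := by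
    refine Submodule.span_induction (p := fun y _ => ∃ S0 : Finset (Σ m, (β m).V),
      ∀ S ≥ S0, Sp.P S y = y) ?_ ⟨∅, fun S _ => map_zero _⟩ ?_ ?_ hy
    · rintro _ ⟨i, -, rfl⟩
      exact ⟨{i}, fun S hS => (Sp.atomic β).P_e_in (hS (mem_singleton_self i))⟩
    · rintro a b - - ⟨S1, a1⟩ ⟨S2, a2⟩
      exact ⟨S1 ∪ S2, fun S hS => by
        rw [map_add, a1 S (subset_union_left.trans hS), a2 S (subset_union_right.trans hS)]⟩
    · rintro t a - ⟨S1, a1⟩
      exact ⟨S1, fun S hS => by rw [map_smul, a1 S hS]⟩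
  obtain ⟨S0, h2⟩ := h2
  refine ⟨S0, fun S hS => ?_⟩
  have e1 : Sp.P S x - x = Sp.P S (x - y) - (x - y) := by
    rw [map_sub, h2 S hS]
    abel
  rw [h1, dist_eq_norm, e1]
  rw [dist_eq_norm] at hxy
  linarith [norm_sub_le (Sp.P S (x - y)) (x - y), Sp.norm_P (S : Set _) (x - y)]

theorem counterexample_dom : ∃ β : ℕ → Blk, ∀ A B : Sp β →L[ℝ] Sp β, Pos A → Pos B →
    (IsCompactOperator A ∨ IsCompactOperator B) →
      ¬ ∀ x, 0 ≤ x → Sp.op β x ≤ A (B x) - B (A x) := by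
  choose V fin dec Φ Ed lev h1 h2 h3 h4 h5 using fun m : ℕ =>
    finite_block ((m : ℝ) + 1) ((1 / 2) ^ m) (by positivity) (by positivity)
  let β : ℕ → Blk := fun m => ⟨V m, fin m, dec m, Φ m, Ed m, lev m, h1 m, h2 m, h3 m, h4 m⟩
  refine ⟨β, fun A B hA hB hc hle => ?_⟩
  have dom : ∀ i j, Sp.co i (Sp.op β (Sp.e j)) ≤ Sp.co i ((A * B - B * A) (Sp.e j)) := fun i j =>
    (Sp.atomic β).le_iff.1 (hle _ ((Sp.atomic β).e_nonneg j)) i
  have tri := fun k m (h : k < m) (u : (β k).V) (w : (β m).V) =>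
    (Sp.atomic β).triangular hA hB (fun x hx => (Sp.op_pos x hx).trans (hle x hx)) hc ⟨k, u⟩ ⟨m, w⟩
      ((Sp.op_entry_pos h u w).trans_le (dom _ _))
  obtain ⟨m, hm⟩ := exists_nat_ge (max ‖A‖ ‖B‖)
  have ent : ∀ X : Sp β →L[ℝ] Sp β, Pos X → ∀ y z : (β m).V,
      0 ≤ Sp.co ⟨m, y⟩ (X (Sp.e ⟨m, z⟩)) := fun X hX y z =>
    (Sp.atomic β).co_nonneg (hX _ ((Sp.atomic β).e_nonneg _)) _
  obtain ⟨x, y, hE, hlt⟩ := h5 m _ _ (ent A hA) (ent B hB)
    (Sp.bdd_of_pos (β := β) m (by linarith [le_max_left ‖A‖ ‖B‖]))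
    (Sp.bdd_of_pos (β := β) m (by linarith [le_max_right ‖A‖ ‖B‖]))
  have e1 := (Sp.op_entry_edge (β := β) (m := m) hE).trans (dom _ _)
  have e2 := Sp.entry_prod (X := A) (Y := B) (fun k m h u w => (tri k m h u w).1)
    (fun k m h u w => (tri k m h u w).2) m x y
  have e3 := Sp.entry_prod (X := B) (Y := A) (fun k m h u w => (tri k m h u w).2)
    (fun k m h u w => (tri k m h u w).1) m x y
  have e4 : Sp.co ⟨m, y⟩ ((A * B - B * A) (Sp.e ⟨m, x⟩)) =
      Sp.co ⟨m, y⟩ (A (B (Sp.e ⟨m, x⟩))) - Sp.co ⟨m, y⟩ (B (A (Sp.e ⟨m, x⟩))) := map_sub _ _ _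
  rw [e4, e2, e3] at e1
  exact absurd hlt (not_lt.2 e1)

end Pool.Agent.Work.MP_4e33a2_an
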